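import Pool.Agent.H.MP_a07d0e_nt.K

namespace Pool.Agent.H.MP_a07d0e_nt

/-- a Moebius chart `t ↦ A + c t / (1 + r t)` -/
structure Co where
  A : ℝ
  c : ℝ
  r : ℝ

/-- the chart as a function -/
noncomputable def ph (s : Co) (t : ℝ) : ℝ := s.A + s.c * t / (1 + s.r * t)

/-- append a digit -/
noncomputable def stp (s : Co) (d : ℕ) : Co :=
  ⟨s.A + s.c / (d + s.r), -s.c / (d + s.r) ^ 2, 1 / (d + s.r)⟩

/-- append a word (coded in binary) -/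
noncomputable def app : ℕ → Co → ℕ → Co
  | 0, s, _ => s
  | f + 1, s, u => if u ≤ 1 then s else stp (app f s (u / 2)) (u % 2 + 1)

/-- left anchor -/
def t1 : ℚ := 3662 / 10000
/-- right anchor -/
def t2 : ℚ := 7319 / 10000

/-- left end -/
noncomputable def lf (s : Co) : ℝ := min (ph s t1) (ph s t2)
/-- length -/
noncomputable def Ln (s : Co) : ℝ := |ph s t2 - ph s t1|
/-- point at a relative position -/
noncomputable def SN (s1 s2 s3 : Co) (g : ℝ) : ℝ :=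
  lf s1 + lf s2 + lf s3 + g * (Ln s1 + Ln s2 + Ln s3)

/-- lower bounds of the classes -/
def lo (i : ℕ) : ℕ := [0, 0, 605378, 383798, 605390, 383803, 737055, 432820].getD i 0
/-- upper bounds of the classes -/
def hi (i : ℕ) : ℕ := [0, 0, 767626, 443186, 664778, 406846, 767615, 443182].getD i 0

/-- class of the distortion -/
def RB (id : ℕ) (x : ℝ) : Prop :=
  ∃ cl : ℕ, 4 ≤ cl ∧ cl < 8 ∧ (id = cl ∨ id = 2 + cl % 2) ∧
    (lo cl : ℝ) ≤ x * 1048576 ∧ x * 1048576 ≤ hi cl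

/-- orientation and class -/
def Bx (k : ℕ) (s : Co) : Prop :=
  ((k / 8 = 0 ∧ 0 < s.c) ∨ (k / 8 = 1 ∧ s.c < 0)) ∧ RB (k % 8) s.r

/-- ratio of lengths -/
def Rt (a b : ℕ) (s s' : Co) : Prop :=
  (a : ℝ) * Ln s ≤ 65536 * Ln s' ∧ 65536 * Ln s' ≤ (b : ℝ) * Ln s

/-- good states -/
def Good0 (s1 s2 s3 : Co) (T : ℝ) : Prop :=
  ∃ v1 v2 v3 i j z : ℕ, v1 < 4 ∧ v2 < 4 ∧ v3 < 4 ∧ i < 10 ∧ j < 10 ∧ z < 256 ∧
    Bx (ky v1) s1 ∧ Bx (ky v2) s2 ∧ Bx (ky v3) s3 ∧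
    Rt (Eg (i + 1)) (Eg i) s1 s2 ∧ Rt (Eg (j + 1)) (Eg j) s1 s3 ∧
    (get GT (v1 + 4 * v2 + 16 * v3)).testBit (256 * (10 * i + j) + z) = true ∧
    SN s1 s2 s3 ((z : ℝ) / 256) < T ∧ T ≤ SN s1 s2 s3 (((z : ℝ) + 1) / 256)

/-- good states up to order -/
def GoodS (s1 s2 s3 : Co) (T : ℝ) : Prop :=
  Good0 s1 s2 s3 T ∨ Good0 s1 s3 s2 T ∨ Good0 s2 s1 s3 T ∨ Good0 s2 s3 s1 T ∨
    Good0 s3 s1 s2 T ∨ Good0 s3 s2 s1 T

/-- meaning of a table entry -/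
def Ent (x : ℕ) (s s' : Co) : Prop :=
  lf s + Ln s * (((fld x 0 16777216 : ℕ) : ℝ) - 4096) / 1048576 ≤ lf s' ∧
  lf s' ≤ lf s + Ln s * (((fld x 24 16777216 : ℕ) : ℝ) - 4096) / 1048576 ∧
  lf s + Ln s * (((fld x 48 16777216 : ℕ) : ℝ) - 4096) / 1048576 ≤ lf s' + Ln s' ∧
  lf s' + Ln s' ≤ lf s + Ln s * (((fld x 72 16777216 : ℕ) : ℝ) - 4096) / 1048576 ∧
  Ln s * ((fld x 96 16777216 : ℕ) : ℝ) ≤ Ln s' * 1048576 ∧
  Ln s' * 1048576 ≤ Ln s * ((fld x 120 16777216 : ℕ) : ℝ) ∧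
  Bx (ky (fld x 144 4)) s'

lemma an_iff (a b : Bool) : an a b = true ↔ a = true ∧ b = true := by
  cases a <;> simp [an]

lemma cnd_iff (c t e : Bool) :
    cnd c t e = true ↔ (c = true ∧ t = true) ∨ (c = false ∧ e = true) := by
  cases c <;> simp [cnd]

lemma frc_eq (n : ℕ) (k : ℕ → Bool) : frc n k = k n := by
  cases n <;> rfl

lemma RB_pos {id : ℕ} {x : ℝ} (h : RB id x) : 1 / 3 ≤ x ∧ x ≤ 3 / 4 := by
  obtain ⟨cl, h1, h2, -, h3, h4⟩ := h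
  interval_cases cl <;> simp [lo, hi] at h3 h4 <;> constructor <;> linarith

lemma ph_sub (s : Co) (a b : ℝ) (ha : 0 < 1 + s.r * a) (hb : 0 < 1 + s.r * b) :
    ph s a - ph s b = s.c * (a - b) / ((1 + s.r * a) * (1 + s.r * b)) := by
  unfold ph
  rw [add_sub_add_left_eq_sub, div_sub_div _ _ ha.ne' hb.ne']
  congr 1
  ring

lemma t1_eq : ((t1 : ℚ) : ℝ) = 3662 / 10000 := by norm_num [t1]
lemma t2_eq : ((t2 : ℚ) : ℝ) = 7319 / 10000 := by norm_num [t2]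

lemma Ln_pos {k : ℕ} {s : Co} (h : Bx k s) : 0 < Ln s := by
  obtain ⟨h1, h2⟩ := h
  have hr := (RB_pos h2).1
  have a1 : 0 < 1 + s.r * (t1 : ℝ) := by rw [t1_eq]; positivity
  have a2 : 0 < 1 + s.r * (t2 : ℝ) := by rw [t2_eq]; positivity
  unfold Ln
  rw [ph_sub s _ _ a2 a1, abs_pos]
  have hc : s.c ≠ 0 := by rcases h1 with h | h <;> [exact h.2.ne'; exact h.2.ne]
  have : (t2 : ℝ) - t1 ≠ 0 := by rw [t1_eq, t2_eq]; norm_num
  positivity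

lemma wsum (L1 L2 L3 p1 p2 p3 n1 n2 n3 a2 b2 a3 b3 : ℝ) (h1 : 0 < L1)
    (hp2 : 0 ≤ p2) (hp3 : 0 ≤ p3) (hn2 : 0 ≤ n2) (hn3 : 0 ≤ n3)
    (h2a : a2 * L1 ≤ 65536 * L2) (h2b : 65536 * L2 ≤ b2 * L1)
    (h3a : a3 * L1 ≤ 65536 * L3) (h3b : 65536 * L3 ≤ b3 * L1)
    (h : 65536 * p1 + b2 * p2 + b3 * p3 ≤ 65536 * n1 + a2 * n2 + a3 * n3) :
    L1 * (p1 - n1) + L2 * (p2 - n2) + L3 * (p3 - n3) ≤ 0 := by
  have e1 := mul_le_mul_of_nonneg_right h2b hp2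
  have e2 := mul_le_mul_of_nonneg_right h2a hn2
  have e3 := mul_le_mul_of_nonneg_right h3b hp3
  have e4 := mul_le_mul_of_nonneg_right h3a hn3
  have e5 := mul_le_mul_of_nonneg_left h h1.le
  nlinarith

lemma sub_cast (g X : ℕ) : (g : ℝ) - X = ((g - X : ℕ) : ℝ) - ((X - g : ℕ) : ℝ) := by
  rcases le_total g X with h | h
  · rw [Nat.sub_eq_zero_of_le h, Nat.cast_sub h]; simp
  · rw [Nat.sub_eq_zero_of_le h, Nat.cast_sub h]; simp

lemma cmpA_sound {g1 g2 g3 X a2 b2 a3 b3 : ℕ} (h : cmpA g1 g2 g3 X a2 b2 a3 b3 = true)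
    {s1 s2 s3 : Co} (h1 : 0 < Ln s1) (h2 : Rt a2 b2 s1 s2) (h3 : Rt a3 b3 s1 s3) :
    Ln s1 * ((g1 : ℝ) - X) + Ln s2 * ((g2 : ℝ) - X) + Ln s3 * ((g3 : ℝ) - X) ≤ 0 := by
  rw [sub_cast g1, sub_cast g2, sub_cast g3]
  refine wsum _ _ _ _ _ _ _ _ _ a2 b2 a3 b3 h1 (by positivity) (by positivity) (by positivity)
    (by positivity) h2.1 h2.2 h3.1 h3.2 ?_
  unfold cmpA at h
  rw [Nat.ble_eq] at h
  simp only [Nat.add_eq, Nat.mul_eq, Nat.sub_eq] at h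
  exact_mod_cast h

lemma cmpB_sound {g1 g2 g3 X a2 b2 a3 b3 : ℕ} (h : cmpB g1 g2 g3 X a2 b2 a3 b3 = true)
    {s1 s2 s3 : Co} (h1 : 0 < Ln s1) (h2 : Rt a2 b2 s1 s2) (h3 : Rt a3 b3 s1 s3) :
    0 ≤ Ln s1 * ((g1 : ℝ) - X) + Ln s2 * ((g2 : ℝ) - X) + Ln s3 * ((g3 : ℝ) - X) := by
  rw [sub_cast g1, sub_cast g2, sub_cast g3]
  have := wsum _ _ _ ((X - g1 : ℕ) : ℝ) ((X - g2 : ℕ) : ℝ) ((X - g3 : ℕ) : ℝ)
    ((g1 - X : ℕ) : ℝ) ((g2 - X : ℕ) : ℝ) ((g3 - X : ℕ) : ℝ) a2 b2 a3 b3 h1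
    (by positivity) (by positivity) (by positivity)
    (by positivity) h2.1 h2.2 h3.1 h3.2 (by
      unfold cmpB at h
      rw [Nat.ble_eq] at h
      simp only [Nat.add_eq, Nat.mul_eq, Nat.sub_eq] at h
      exact_mod_cast h)
  linarith

lemma ivt_le (f : ℕ → ℝ) (y : ℝ) (a : ℕ) (ha : y ≤ f a) :
    ∀ n : ℕ, f (a + n + 1) ≤ y → ∃ i, a ≤ i ∧ i ≤ a + n ∧ f (i + 1) ≤ y ∧ y ≤ f i := by
  intro n
  induction n with
  | zero => intro h; exact ⟨a, le_rfl, le_rfl, h, ha⟩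
  | succ n ih =>
    intro h
    rcases le_total (f (a + n + 1)) y with h' | h'
    · obtain ⟨i, h1, h2, h3⟩ := ih h'
      exact ⟨i, h1, by omega, h3⟩
    · exact ⟨a + n + 1, by omega, by omega, h, h'⟩

lemma ivt_lt (f : ℕ → ℝ) (y : ℝ) (a : ℕ) (ha : f a < y) :
    ∀ n : ℕ, y ≤ f (a + n + 1) → ∃ i, a ≤ i ∧ i ≤ a + n ∧ f i < y ∧ y ≤ f (i + 1) := by
  intro n
  induction n with
  | zero => intro h; exact ⟨a, le_rfl, le_rfl, ha, h⟩
  | succ n ih =>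
    intro h
    rcases le_or_gt y (f (a + n + 1)) with h' | h'
    · obtain ⟨i, h1, h2, h3⟩ := ih h'
      exact ⟨i, h1, by omega, h3⟩
    · exact ⟨a + n + 1, by omega, by omega, h', h⟩

/-- scaled length bounds -/
def Lb (L : ℝ) (a b : ℕ) (s : Co) : Prop :=
  (a : ℝ) * L ≤ 68719476736 * Ln s ∧ 68719476736 * Ln s ≤ (b : ℝ) * L

lemma rng_sound {loA hiA loB hiB i0 di : ℕ} (h : rng loA hiA loB hiB i0 di = true)
    {L : ℝ} (hL : 0 < L) {sA sB : Co} (hA : Lb L loA hiA sA) (hB : Lb L loB hiB sB) :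
    ∃ i, i0 ≤ i ∧ i ≤ i0 + di ∧ i < 10 ∧ Rt (Eg (i + 1)) (Eg i) sA sB := by
  unfold rng at h
  rw [an_iff, an_iff, Nat.ble_eq, Nat.ble_eq, Nat.ble_eq] at h
  simp only [Nat.add_eq, Nat.mul_eq, Nat.succ_eq_add_one] at h
  obtain ⟨h1, h2, h3⟩ := h
  have h2' : (hiB : ℝ) * 65536 ≤ Eg i0 * loA := by exact_mod_cast h2
  have h3' : (Eg (i0 + di + 1) : ℝ) * hiA ≤ loB * 65536 := by exact_mod_cast h3
  obtain ⟨i, a1, a2, a3, a4⟩ := ivt_le (fun i => (Eg i : ℝ) * Ln sA) (65536 * Ln sB) i0 (by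
    have e1 := mul_le_mul_of_nonneg_right h2' hL.le
    have e2 := mul_le_mul_of_nonneg_left hA.1 (show (0 : ℝ) ≤ Eg i0 by positivity)
    have e3 := hB.2
    nlinarith) di (by
    have e1 := mul_le_mul_of_nonneg_right h3' hL.le
    have e2 := mul_le_mul_of_nonneg_left hA.2 (show (0 : ℝ) ≤ Eg (i0 + di + 1) by positivity)
    have e3 := hB.1
    nlinarith)
  exact ⟨i, a1, a2, by omega, a3, a4⟩

lemma allr_sound {f : ℕ → Bool} {a : ℕ} : ∀ {n : ℕ}, allr f a n = true →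
    ∀ i, a ≤ i → i ≤ a + n → f i = true := by
  intro n
  induction n with
  | zero =>
    intro h i h1 h2
    have : i = a := by omega
    subst this
    exact h
  | succ n ih =>
    intro h i h1 h2
    have h' : an (f (a + (n + 1))) (allr f a n) = true := h
    rw [an_iff] at h'
    rcases Nat.lt_or_ge i (a + (n + 1)) with h3 | h3
    · exact ih h'.2 i h1 (by omega)
    · have : i = a + (n + 1) := by omega
      subst this
      exact h'.1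

lemma fld_eq (x i w : ℕ) : fld x i w = (x >>> i) % w := rfl

lemma bits_sound {ch i0 di j0 dj ta n : ℕ} (h : bits ch i0 di j0 dj ta n = true)
    {i j z : ℕ} (h1 : i0 ≤ i) (h2 : i ≤ i0 + di) (h3 : j0 ≤ j) (h4 : j ≤ j0 + dj)
    (h5 : ta ≤ z) (h6 : z < ta + n) : ch.testBit (256 * (10 * i + j) + z) = true := by
  have a := allr_sound (allr_sound h i h1 h2) j h3 h4
  rw [Nat.beq_eq, fld_eq] at a
  simp only [Nat.add_eq, Nat.mul_eq, Nat.succ_eq_add_one, Nat.pow_eq] at a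
  have b : (ch >>> (256 * (10 * i + j) + ta)) % 2 ^ n = 2 ^ n - 1 := by omega
  have c := congrArg (fun y => y.testBit (z - ta)) b
  simp only [Nat.testBit_mod_two_pow, Nat.testBit_shiftRight, Nat.testBit_two_pow_sub_one] at c
  have d : z - ta < n := by omega
  have e : 256 * (10 * i + j) + ta + (z - ta) = 256 * (10 * i + j) + z := by omega
  simpa [d, e] using c

lemma fin_sound {vA loA hiA vB loB hiB vC loC hiC i0 di j0 dj ta n : ℕ}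
    (h : fin vA loA hiA vB loB hiB vC loC hiC i0 di j0 dj ta n = true)
    (hn : 1 ≤ n) (hta : ta + n ≤ 256) {L : ℝ} (hL : 0 < L) {sA sB sC : Co} {T : ℝ}
    (hA : vA < 4 ∧ Bx (ky vA) sA ∧ Lb L loA hiA sA)
    (hB : vB < 4 ∧ Bx (ky vB) sB ∧ Lb L loB hiB sB)
    (hC : vC < 4 ∧ Bx (ky vC) sC ∧ Lb L loC hiC sC)
    (h1 : SN sA sB sC ((ta : ℝ) / 256) < T) (h2 : T ≤ SN sA sB sC (((ta + n : ℕ) : ℝ) / 256)) :
    Good0 sA sB sC T := by
  unfold fin at h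
  rw [an_iff, an_iff] at h
  obtain ⟨i, a1, a2, a3, a4⟩ := rng_sound h.1 hL hA.2.2 hB.2.2
  obtain ⟨j, b1, b2, b3, b4⟩ := rng_sound h.2.1 hL hA.2.2 hC.2.2
  obtain ⟨z, c1, c2, c3, c4⟩ := ivt_lt (fun z => SN sA sB sC ((z : ℝ) / 256)) T ta h1 (n - 1) (by
    have : ta + (n - 1) + 1 = ta + n := by omega
    rw [this]; exact h2)
  refine ⟨vA, vB, vC, i, j, z, hA.1, hB.1, hC.1, a3, b3, by omega, hA.2.1, hB.2.1, hC.2.1,
    a4, b4, bits_sound h.2.2 a1 a2 b1 b2 c1 (by omega), c3, ?_⟩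
  simpa using c4

lemma prm_sound {p v1 lo1 hi1 v2 lo2 hi2 v3 lo3 hi3 i0 di j0 dj ta n : ℕ}
    (h : prm p v1 lo1 hi1 v2 lo2 hi2 v3 lo3 hi3 i0 di j0 dj ta n = true)
    (hn : 1 ≤ n) (hta : ta + n ≤ 256) {L : ℝ} (hL : 0 < L) {s1 s2 s3 : Co} {T : ℝ}
    (hA : v1 < 4 ∧ Bx (ky v1) s1 ∧ Lb L lo1 hi1 s1)
    (hB : v2 < 4 ∧ Bx (ky v2) s2 ∧ Lb L lo2 hi2 s2)
    (hC : v3 < 4 ∧ Bx (ky v3) s3 ∧ Lb L lo3 hi3 s3)
    (h1 : SN s1 s2 s3 ((ta : ℝ) / 256) < T) (h2 : T ≤ SN s1 s2 s3 (((ta + n : ℕ) : ℝ) / 256)) :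
    GoodS s1 s2 s3 T := by
  unfold prm at h
  simp only [cnd_iff] at h
  unfold GoodS
  rcases h with ⟨-, ⟨-, h⟩ | ⟨-, ⟨-, h⟩ | ⟨-, h⟩⟩⟩ | ⟨-, ⟨-, h⟩ | ⟨-, ⟨-, h⟩ | ⟨-, h⟩⟩⟩
  · exact Or.inl (fin_sound h hn hta hL hA hB hC h1 h2)
  · refine Or.inr (Or.inl (fin_sound h hn hta hL hA hC hB ?_ ?_)) <;>
      unfold SN at * <;> linarith
  · refine Or.inr (Or.inr (Or.inl (fin_sound h hn hta hL hB hA hC ?_ ?_))) <;>
      unfold SN at * <;> linarith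
  · refine Or.inr (Or.inr (Or.inr (Or.inl (fin_sound h hn hta hL hB hC hA ?_ ?_)))) <;>
      unfold SN at * <;> linarith
  · refine Or.inr (Or.inr (Or.inr (Or.inr (Or.inl (fin_sound h hn hta hL hC hA hB ?_ ?_))))) <;>
      unfold SN at * <;> linarith
  · refine Or.inr (Or.inr (Or.inr (Or.inr (Or.inr (fin_sound h hn hta hL hC hB hA ?_ ?_))))) <;>
      unfold SN at * <;> linarith

lemma gA_sound {x : ℕ} {s s' : Co} (h : Ent x s s') {t : ℕ} (ht : t ≤ 256) :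
    lf s' + (t : ℝ) / 256 * Ln s' ≤ lf s + Ln s * ((gA x t : ℝ) - 1048576) / 268435456 := by
  obtain ⟨-, h2, -, h4, -⟩ := h
  have e : (gA x t : ℝ) = (256 - t) * (fld x 24 16777216 : ℕ) + t * (fld x 72 16777216 : ℕ) := by
    unfold gA
    simp only [Nat.add_eq, Nat.mul_eq, Nat.sub_eq]
    push_cast [Nat.cast_sub ht]
    ring
  have a : (0 : ℝ) ≤ 256 - t := by
    have : (t : ℝ) ≤ 256 := by exact_mod_cast ht
    linarith
  have e1 := mul_le_mul_of_nonneg_left h2 a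
  have e2 := mul_le_mul_of_nonneg_left h4 (show (0 : ℝ) ≤ t by positivity)
  rw [e]
  nlinarith

lemma gB_sound {x : ℕ} {s s' : Co} (h : Ent x s s') {t : ℕ} (ht : t ≤ 256) :
    lf s + Ln s * ((gB x t : ℝ) - 1048576) / 268435456 ≤ lf s' + (t : ℝ) / 256 * Ln s' := by
  obtain ⟨h2, -, h4, -⟩ := h
  have e : (gB x t : ℝ) = (256 - t) * (fld x 0 16777216 : ℕ) + t * (fld x 48 16777216 : ℕ) := by
    unfold gB
    simp only [Nat.add_eq, Nat.mul_eq, Nat.sub_eq]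
    push_cast [Nat.cast_sub ht]
    ring
  have a : (0 : ℝ) ≤ 256 - t := by
    have : (t : ℝ) ≤ 256 := by exact_mod_cast ht
    linarith
  have e1 := mul_le_mul_of_nonneg_left h2 a
  have e2 := mul_le_mul_of_nonneg_left h4 (show (0 : ℝ) ≤ t by positivity)
  rw [e]
  nlinarith

lemma Lb_of {x a b : ℕ} {s1 s s' : Co} (h : Ent x s s') (hr : Rt a b s1 s) :
    fld x 144 4 < 4 ∧ Bx (ky (fld x 144 4)) s' ∧
      Lb (Ln s1) (Nat.mul (fld x 96 16777216) a) (Nat.mul (fld x 120 16777216) b) s' := by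
  obtain ⟨-, -, -, -, h5, h6, h7⟩ := h
  refine ⟨Nat.mod_lt _ (by norm_num), h7, ?_, ?_⟩
  · simp only [Nat.mul_eq]
    push_cast
    have := mul_le_mul_of_nonneg_left hr.1
      (show (0 : ℝ) ≤ (fld x 96 16777216 : ℕ) by positivity)
    nlinarith
  · simp only [Nat.mul_eq]
    push_cast
    have := mul_le_mul_of_nonneg_left hr.2
      (show (0 : ℝ) ≤ (fld x 120 16777216 : ℕ) by positivity)
    nlinarith

lemma slab_sound {x1 x2 x3 a2 b2 a3 b3 cur new p i0 di j0 dj ta n : ℕ}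
    (h : slab x1 x2 x3 a2 b2 a3 b3 cur new p i0 di j0 dj ta n = true)
    {s1 s2 s3 s1' s2' s3' : Co} {T : ℝ} (h1 : 0 < Ln s1) (h2 : 0 < Ln s2) (h3 : 0 < Ln s3)
    (r2 : Rt a2 b2 s1 s2) (r3 : Rt a3 b3 s1 s3)
    (e1 : Ent x1 s1 s1') (e2 : Ent x2 s2 s2') (e3 : Ent x3 s3 s3')
    (hl : SN s1 s2 s3 ((cur : ℝ) / 65536) < T) (hu : T ≤ SN s1 s2 s3 ((new : ℝ) / 65536)) :
    GoodS s1' s2' s3' T ∧ Ln s1' * Ln s2' * Ln s3' * 2 ≤ Ln s1 * Ln s2 * Ln s3 := by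
  unfold slab at h
  simp only [an_iff, Nat.ble_eq] at h
  obtain ⟨a1, a2', a3', a4, a5, a6⟩ := h
  have r1 : Rt 65536 65536 s1 s1 := by constructor <;> simp
  have hta : ta + n ≤ 256 := a2'
  constructor
  · refine prm_sound a6 a1 hta h1 (Lb_of e1 r1) (Lb_of e2 r2) (Lb_of e3 r3) ?_ ?_
    · have c := cmpA_sound a3' h1 r2 r3
      have d1 := gA_sound e1 (show ta ≤ 256 by omega)
      have d2 := gA_sound e2 (show ta ≤ 256 by omega)
      have d3 := gA_sound e3 (show ta ≤ 256 by omega)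
      simp only [Nat.add_eq, Nat.mul_eq] at c
      push_cast at c
      generalize (gA x1 ta : ℝ) = y1 at *
      generalize (gA x2 ta : ℝ) = y2 at *
      generalize (gA x3 ta : ℝ) = y3 at *
      unfold SN at hl ⊢
      linarith
    · have c := cmpB_sound a4 h1 r2 r3
      have d1 := gB_sound e1 hta
      have d2 := gB_sound e2 hta
      have d3 := gB_sound e3 hta
      simp only [Nat.add_eq, Nat.mul_eq] at c
      push_cast at c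
      generalize (gB x1 (ta + n) : ℝ) = y1 at *
      generalize (gB x2 (ta + n) : ℝ) = y2 at *
      generalize (gB x3 (ta + n) : ℝ) = y3 at *
      unfold SN at hu ⊢
      linarith
  · have p1 := Ln_pos e1.2.2.2.2.2.2
    have p2 := Ln_pos e2.2.2.2.2.2.2
    have p3 := Ln_pos e3.2.2.2.2.2.2
    have q1 := e1.2.2.2.2.2.1
    have q2 := e2.2.2.2.2.2.1
    have q3 := e3.2.2.2.2.2.1
    simp only [Nat.mul_eq] at a5
    have a5' : ((fld x1 120 16777216 : ℕ) : ℝ) * (fld x2 120 16777216 : ℕ) *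
        (fld x3 120 16777216 : ℕ) * 2 ≤ 1152921504606846976 := by exact_mod_cast a5
    have m1 := mul_le_mul q1 q2 (by positivity) (by positivity)
    have m2 := mul_le_mul m1 q3 (by positivity) (by positivity)
    have m3 := mul_le_mul_of_nonneg_left a5' (show 0 ≤ Ln s1 * Ln s2 * Ln s3 by positivity)
    generalize ((fld x1 120 16777216 : ℕ) : ℝ) = y1 at *
    generalize ((fld x2 120 16777216 : ℕ) : ℝ) = y2 at *
    generalize ((fld x3 120 16777216 : ℕ) : ℝ) = y3 at *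
    linarith

end Pool.Agent.H.MP_a07d0e_nt
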