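import Pool.Agent.H.MP_a07d0e_nt.A

namespace Pool.Agent.H.MP_a07d0e_nt

/-- action of a word on the tail -/
def mob {F : Type} [Field F] : ℕ → ℕ → F → F
  | 0, _, t => t
  | f + 1, u, t => if u ≤ 1 then t else mob f (u / 2) (1 / (((u % 2 + 1 : ℕ) : F) + t))

/-- a linear fractional function -/
def fr {F : Type} [Field F] (K al be x : F) : F := K * (1 + x * al) / (1 + x * be)

/-- check of a table entry, numerical part -/
def numOK {F : Type} [Field F] [LinearOrder F] (o : ℕ) (t1 t2 a b l h f0 f1 f2 f3 f4 f5 : F) : Prop :=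
  a < b ∧
  ((o = 0 ∧ f0 ≤ min (fr ((a - t1) / (t2 - t1)) t2 a l) (fr ((a - t1) / (t2 - t1)) t2 a h) ∧
      max (fr ((a - t1) / (t2 - t1)) t2 a l) (fr ((a - t1) / (t2 - t1)) t2 a h) ≤ f1 ∧
      f2 ≤ min (fr ((b - t1) / (t2 - t1)) t2 b l) (fr ((b - t1) / (t2 - t1)) t2 b h) ∧
      max (fr ((b - t1) / (t2 - t1)) t2 b l) (fr ((b - t1) / (t2 - t1)) t2 b h) ≤ f3) ∨
    (o = 1 ∧ f0 ≤ 1 - max (fr ((b - t1) / (t2 - t1)) t2 b l) (fr ((b - t1) / (t2 - t1)) t2 b h) ∧
      1 - min (fr ((b - t1) / (t2 - t1)) t2 b l) (fr ((b - t1) / (t2 - t1)) t2 b h) ≤ f1 ∧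
      f2 ≤ 1 - max (fr ((a - t1) / (t2 - t1)) t2 a l) (fr ((a - t1) / (t2 - t1)) t2 a h) ∧
      1 - min (fr ((a - t1) / (t2 - t1)) t2 a l) (fr ((a - t1) / (t2 - t1)) t2 a h) ≤ f3)) ∧
  f4 ≤ min (fr 1 t1 a l) (fr 1 t1 a h) *
    min (fr ((b - a) / (t2 - t1)) t2 b l) (fr ((b - a) / (t2 - t1)) t2 b h) ∧
  max (fr 1 t1 a l) (fr 1 t1 a h) *
    max (fr ((b - a) / (t2 - t1)) t2 b l) (fr ((b - a) / (t2 - t1)) t2 b h) ≤ f5

instance (o : ℕ) (t1 t2 a b l h f0 f1 f2 f3 f4 f5 : ℚ) :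
    Decidable (numOK o t1 t2 a b l h f0 f1 f2 f3 f4 f5) := by
  unfold numOK; infer_instance

/-- check of a table entry -/
def entOK (o id u x : ℕ) : Prop :=
  numOK o t1 t2 (min (mob 5 u t1) (mob 5 u t2)) (max (mob 5 u t1) (mob 5 u t2))
    ((lo id : ℚ) / 1048576) ((hi id : ℚ) / 1048576)
    ((((fld x 0 16777216 : ℕ) : ℚ) - 4096) / 1048576)
    ((((fld x 24 16777216 : ℕ) : ℚ) - 4096) / 1048576)
    ((((fld x 48 16777216 : ℕ) : ℚ) - 4096) / 1048576)
    ((((fld x 72 16777216 : ℕ) : ℚ) - 4096) / 1048576)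
    (((fld x 96 16777216 : ℕ) : ℚ) / 1048576)
    (((fld x 120 16777216 : ℕ) : ℚ) / 1048576) ∧
  fld x 144 4 = (if mob 5 u t1 < mob 5 u t2 then o else 1 - o) +
    2 * (if u ≤ 1 then id % 2 else u % 2)

instance (o id u x : ℕ) : Decidable (entOK o id u x) := by
  unfold entOK; infer_instance

lemma tab_ok : ∀ o < 2, ∀ id < 8, 2 ≤ id → ∀ u < 32,
    entOK o id u (ent (get RT (8 * o + id)) u) := by decide +kernel

lemma mob_cast : ∀ (f u : ℕ) (t : ℚ), ((mob f u t : ℚ) : ℝ) = mob f u (t : ℝ) := by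
  intro f
  induction f with
  | zero => intro u t; rfl
  | succ f ih =>
    intro u t
    unfold mob
    split_ifs
    · rfl
    · rw [ih]; push_cast; rfl

lemma numOK_cast {o : ℕ} {t1 t2 a b l h f0 f1 f2 f3 f4 f5 : ℚ}
    (H : numOK o t1 t2 a b l h f0 f1 f2 f3 f4 f5) :
    numOK o (t1 : ℝ) (t2 : ℝ) (a : ℝ) (b : ℝ) (l : ℝ) (h : ℝ) (f0 : ℝ) (f1 : ℝ) (f2 : ℝ) (f3 : ℝ)
      (f4 : ℝ) (f5 : ℝ) := by
  unfold numOK fr at *
  exact_mod_cast H

lemma mob_pos : ∀ (f u : ℕ) (t : ℝ), 0 < t → 0 < mob f u t := by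
  intro f
  induction f with
  | zero => intro u t h; exact h
  | succ f ih =>
    intro u t h
    unfold mob
    split_ifs
    · exact h
    · exact ih _ _ (by positivity)

lemma app_pos : ∀ (f u : ℕ) (s : Co), 0 ≤ s.r → 0 ≤ (app f s u).r := by
  intro f
  induction f with
  | zero => intro u s h; exact h
  | succ f ih =>
    intro u s h
    unfold app
    split_ifs
    · exact h
    · have := ih (u / 2) s h
      simp only [stp]
      positivity

lemma ph_stp (s : Co) (d : ℕ) (hd : 0 < d) (t : ℝ) (hr : 0 ≤ s.r) (ht : 0 < t) :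
    ph (stp s d) t = ph s (1 / (d + t)) := by
  have : (0 : ℝ) < d := by exact_mod_cast hd
  unfold ph stp
  simp only
  field_simp
  ring

lemma ph_app : ∀ (f u : ℕ) (s : Co) (t : ℝ), 0 ≤ s.r → 0 < t →
    ph (app f s u) t = ph s (mob f u t) := by
  intro f
  induction f with
  | zero => intro u s t _ _; rfl
  | succ f ih =>
    intro u s t h ht
    unfold app mob
    split_ifs
    · rfl
    · rw [ph_stp _ _ (by omega) _ (app_pos _ _ _ h) ht, ih _ _ _ h (by positivity)]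

lemma RB_stp {id : ℕ} {x : ℝ} (h : RB id x) (e : ℕ) (he : e < 2) :
    RB (4 + e + 2 * (id % 2)) (1 / (((e + 1 : ℕ) : ℝ) + x)) := by
  have hp := (RB_pos h).1
  obtain ⟨cl, h1, h2, h5, h3, h4⟩ := h
  have h6 : id % 2 = cl % 2 := by omega
  rw [h6]
  refine ⟨4 + e + 2 * (cl % 2), by omega, by omega, Or.inl rfl, ?_, ?_⟩
  · rw [div_mul_eq_mul_div, le_div_iff₀ (by positivity)]
    interval_cases cl <;> interval_cases e <;> simp [lo, hi] at h3 h4 ⊢ <;> linarith
  · rw [div_mul_eq_mul_div, div_le_iff₀ (by positivity)]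
    interval_cases cl <;> interval_cases e <;> simp [lo, hi] at h3 h4 ⊢ <;> linarith

lemma RB_weak {id : ℕ} {x : ℝ} (h : RB id x) : RB (2 + id % 2) x := by
  obtain ⟨cl, h1, h2, h5, h3, h4⟩ := h
  exact ⟨cl, h1, h2, by omega, h3, h4⟩

lemma RB_app : ∀ (f u : ℕ) (s : Co) (id : ℕ), RB id s.r → ∃ id', RB id' (app f s u).r := by
  intro f
  induction f with
  | zero => intro u s id h; exact ⟨id, h⟩
  | succ f ih =>
    intro u s id h
    unfold app
    split_ifs
    · exact ⟨id, h⟩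
    · obtain ⟨id', h'⟩ := ih (u / 2) s id h
      exact ⟨_, RB_stp h' (u % 2) (by omega)⟩

lemma RB_app' (u : ℕ) (s : Co) (id : ℕ) (h : RB id s.r) :
    RB (2 + (if u ≤ 1 then id % 2 else u % 2)) (app 5 s u).r := by
  unfold app
  split_ifs
  · exact RB_weak h
  · obtain ⟨id', h'⟩ := RB_app 4 (u / 2) s id h
    have := RB_weak (RB_stp h' (u % 2) (by omega))
    have e : (4 + u % 2 + 2 * (id' % 2)) % 2 = u % 2 := by omega
    rw [e] at this
    exact this

lemma RB_bd {id : ℕ} {x : ℝ} (h : RB id x) :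
    2 ≤ id ∧ id < 8 ∧ (lo id : ℝ) / 1048576 ≤ x ∧ x ≤ (hi id : ℝ) / 1048576 := by
  obtain ⟨cl, h1, h2, h5, h3, h4⟩ := h
  refine ⟨by omega, by omega, ?_, ?_⟩
  · rcases h5 with h5 | h5 <;> rw [h5] <;> interval_cases cl <;> simp [lo, hi] at h3 h4 ⊢ <;>
      linarith
  · rcases h5 with h5 | h5 <;> rw [h5] <;> interval_cases cl <;> simp [lo, hi] at h3 h4 ⊢ <;>
      linarith

lemma lin_btw {p q l h x : ℝ} (h1 : 0 ≤ p + q * l) (h2 : 0 ≤ p + q * h) (hl : l ≤ x)
    (hh : x ≤ h) : 0 ≤ p + q * x := by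
  rcases le_total 0 q with hq | hq <;> nlinarith

lemma fr_btw (K al : ℝ) {be l h x : ℝ} (hb : 0 ≤ be) (h0 : 0 ≤ l) (hl : l ≤ x) (hh : x ≤ h) :
    min (fr K al be l) (fr K al be h) ≤ fr K al be x ∧
      fr K al be x ≤ max (fr K al be l) (fr K al be h) := by
  have hx : 0 ≤ x := h0.trans hl
  have hh0 : 0 ≤ h := hx.trans hh
  have p1 : 0 < 1 + l * be := by positivity
  have p2 : 0 < 1 + h * be := by positivity
  have p3 : 0 < 1 + x * be := by positivity
  constructor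
  · have a := min_le_left (fr K al be l) (fr K al be h)
    have b := min_le_right (fr K al be l) (fr K al be h)
    generalize min (fr K al be l) (fr K al be h) = v at *
    unfold fr at *
    rw [le_div_iff₀ p1] at a
    rw [le_div_iff₀ p2] at b
    rw [le_div_iff₀ p3]
    have := lin_btw (p := K - v) (q := K * al - v * be) (by linarith) (by linarith) hl hh
    linarith
  · have a := le_max_left (fr K al be l) (fr K al be h)
    have b := le_max_right (fr K al be l) (fr K al be h)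
    generalize max (fr K al be l) (fr K al be h) = v at *
    unfold fr at *
    rw [div_le_iff₀ p1] at a
    rw [div_le_iff₀ p2] at b
    rw [div_le_iff₀ p3]
    have := lin_btw (p := v - K) (q := v * be - K * al) (by linarith) (by linarith) hl hh
    linarith

lemma pos_eq (s : Co) (hr : 0 ≤ s.r) (e : ℝ) (he : 0 < e) :
    ph s e = ph s t1 + (ph s t2 - ph s t1) * fr ((e - t1) / (t2 - t1)) t2 e s.r := by
  have a1 : 0 < 1 + s.r * (t1 : ℝ) := by rw [t1_eq]; positivity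
  have a2 : 0 < 1 + s.r * (t2 : ℝ) := by rw [t2_eq]; positivity
  have a3 : 0 < 1 + s.r * e := by positivity
  have a4 : (t2 : ℝ) - t1 ≠ 0 := by rw [t1_eq, t2_eq]; norm_num
  rw [← sub_eq_iff_eq_add', ph_sub s _ _ a3 a1, ph_sub s _ _ a2 a1]
  unfold fr
  field_simp

lemma len_eq (s : Co) (hr : 0 ≤ s.r) (a b : ℝ) (ha : 0 < a) (hb : 0 < b) :
    ph s b - ph s a = (ph s t2 - ph s t1) *
      (fr 1 (t1 : ℝ) a s.r * fr ((b - a) / (t2 - t1)) t2 b s.r) := by
  have a1 : 0 < 1 + s.r * (t1 : ℝ) := by rw [t1_eq]; positivity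
  have a2 : 0 < 1 + s.r * (t2 : ℝ) := by rw [t2_eq]; positivity
  have a3 : 0 < 1 + s.r * a := by positivity
  have a5 : 0 < 1 + s.r * b := by positivity
  have a4 : (t2 : ℝ) - t1 ≠ 0 := by rw [t1_eq, t2_eq]; norm_num
  rw [ph_sub s _ _ a5 a3, ph_sub s _ _ a2 a1]
  unfold fr
  field_simp

lemma sg_iff (s : Co) (hr : 0 ≤ s.r) :
    (0 < s.c ↔ 0 < ph s t2 - ph s t1) ∧ (s.c < 0 ↔ ph s t2 - ph s t1 < 0) := by
  have a1 : 0 < 1 + s.r * (t1 : ℝ) := by rw [t1_eq]; positivity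
  have a2 : 0 < 1 + s.r * (t2 : ℝ) := by rw [t2_eq]; positivity
  have a4 : 0 < (t2 : ℝ) - t1 := by rw [t1_eq, t2_eq]; norm_num
  rw [ph_sub s _ _ a2 a1, mul_div_assoc]
  have : 0 < ((t2 : ℝ) - t1) / ((1 + s.r * t2) * (1 + s.r * t1)) := by positivity
  constructor
  · exact (mul_pos_iff_of_pos_right this).symm
  · constructor
    · intro h; exact mul_neg_of_neg_of_pos h this
    · intro h
      by_contra h'
      have := mul_nonneg (not_lt.1 h') this.le
      linarith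

lemma row_ok {k : ℕ} {s : Co} (h : Bx k s) {u : ℕ} (hu : u < 32) :
    Ent (ent (get RT k) u) s (app 5 s u) := by
  obtain ⟨hs, hb⟩ := h
  obtain ⟨b1, b2, b3, b4⟩ := RB_bd hb
  have hr : 0 ≤ s.r := by have := (RB_pos hb).1; linarith
  have ho : k / 8 < 2 := by rcases hs with h | h <;> omega
  have H := tab_ok (k / 8) ho (k % 8) b2 b1 u hu
  rw [Nat.div_add_mod] at H
  generalize ent (get RT k) u = x at H ⊢
  obtain ⟨H1, H2⟩ := H
  have H1 := numOK_cast H1
  have p1 : (0 : ℝ) < t1 := by rw [t1_eq]; norm_num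
  have p2 : (0 : ℝ) < t2 := by rw [t2_eq]; norm_num
  have q1 := mob_pos 5 u _ p1
  have q2 := mob_pos 5 u _ p2
  have c1 := ph_app 5 u s _ hr p1
  have c2 := ph_app 5 u s _ hr p2
  have hlt : mob 5 u t1 < mob 5 u t2 ↔ mob 5 u (t1 : ℝ) < mob 5 u (t2 : ℝ) := by
    rw [← mob_cast, ← mob_cast]; norm_cast
  push_cast [mob_cast] at H1
  have hrb := RB_app' u s _ hb
  have hsg := sg_iff _ (app_pos 5 u s hr)
  have hsg0 := sg_iff _ hr
  simp only [hlt] at H2
  generalize mob 5 u (t1 : ℝ) = e1 at *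
  generalize mob 5 u (t2 : ℝ) = e2 at *
  have hlo : (0 : ℝ) ≤ (lo (k % 8) : ℝ) / 1048576 := by positivity
  have qa : 0 < min e1 e2 := lt_min q1 q2
  have qb : 0 < max e1 e2 := lt_max_of_lt_left q1
  have elf : lf (app 5 s u) = min (ph s (min e1 e2)) (ph s (max e1 e2)) := by
    unfold lf
    rw [c1, c2]
    rcases le_total e1 e2 with h | h
    · rw [min_eq_left h, max_eq_right h]
    · rw [min_eq_right h, max_eq_left h, min_comm]
  have eln : Ln (app 5 s u) = |ph s (max e1 e2) - ph s (min e1 e2)| := by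
    unfold Ln
    rw [c1, c2]
    rcases le_total e1 e2 with h | h
    · rw [min_eq_left h, max_eq_right h]
    · rw [min_eq_right h, max_eq_left h, abs_sub_comm]
  have esg : ph (app 5 s u) t2 - ph (app 5 s u) t1 =
      if e1 < e2 then ph s (max e1 e2) - ph s (min e1 e2)
      else -(ph s (max e1 e2) - ph s (min e1 e2)) := by
    rw [c1, c2]
    split_ifs with h
    · rw [min_eq_left h.le, max_eq_right h.le]
    · rw [min_eq_right (not_lt.1 h), max_eq_left (not_lt.1 h)]; ring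
  generalize min e1 e2 = a at *
  generalize max e1 e2 = b at *
  obtain ⟨hab, hpos, h4, h5⟩ := H1
  have fa := fr_btw ((a - t1) / (t2 - t1)) t2 qa.le hlo b3 b4
  have fb := fr_btw ((b - t1) / (t2 - t1)) t2 qb.le hlo b3 b4
  have g1 := fr_btw 1 t1 qa.le hlo b3 b4
  have g2 := fr_btw ((b - a) / (t2 - t1)) t2 qb.le hlo b3 b4
  have a4 : 0 < (t2 : ℝ) - t1 := by rw [t1_eq, t2_eq]; norm_num
  have hba : 0 < b - a := by linarith
  have hhi : (0 : ℝ) ≤ (hi (k % 8) : ℝ) / 1048576 := by positivity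
  have z1 : 0 < fr 1 (t1 : ℝ) a s.r := by unfold fr; positivity
  have z2 : 0 < fr ((b - a) / (t2 - t1)) t2 b s.r := by unfold fr; positivity
  have z3 : 0 ≤ min (fr ((b - a) / (t2 - t1)) t2 b ((lo (k % 8) : ℝ) / 1048576))
      (fr ((b - a) / (t2 - t1)) t2 b ((hi (k % 8) : ℝ) / 1048576)) := by
    apply le_min <;> unfold fr <;> positivity
  have m1 := h4.trans (mul_le_mul g1.1 g2.1 z3 z1.le)
  have m2 := (mul_le_mul g1.2 g2.2 z2.le (z1.le.trans g1.2)).trans h5
  have zF := mul_pos z1 z2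
  have ea := pos_eq s hr a qa
  have eb := pos_eq s hr b qb
  have el := len_eq s hr a b qa qb
  generalize fr 1 (t1 : ℝ) a s.r * fr ((b - a) / (t2 - t1)) t2 b s.r = F at *
  have fa1 := fa.1
  have fa2 := fa.2
  have fb1 := fb.1
  have fb2 := fb.2
  have hv : fld x 144 4 % 2 = (if e1 < e2 then k / 8 else 1 - k / 8) := by
    rw [H2]; split_ifs <;> omega
  have hv2 : fld x 144 4 / 2 = (if u ≤ 1 then k % 8 % 2 else u % 2) := by
    rw [H2]; split_ifs <;> omega
  have k1 : ky (fld x 144 4) / 8 = (if e1 < e2 then k / 8 else 1 - k / 8) := by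
    unfold ky
    simp only [Nat.add_eq, Nat.mul_eq]
    change (fld x 144 4 % 2 * 8 + 2 + fld x 144 4 / 2) / 8 = _
    rw [← hv, hv2]; split_ifs <;> omega
  have k2 : ky (fld x 144 4) % 8 = 2 + (if u ≤ 1 then k % 8 % 2 else u % 2) := by
    unfold ky
    simp only [Nat.add_eq, Nat.mul_eq]
    change (fld x 144 4 % 2 * 8 + 2 + fld x 144 4 / 2) % 8 = _
    rw [hv2]; split_ifs <;> omega
  unfold Ent Bx
  rw [k1, k2, elf, eln, hsg.1, hsg.2, esg]
  unfold lf Ln
  generalize ((fld x 0 16777216 : ℕ) : ℝ) = y0 at *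
  generalize ((fld x 24 16777216 : ℕ) : ℝ) = y1 at *
  generalize ((fld x 48 16777216 : ℕ) : ℝ) = y2 at *
  generalize ((fld x 72 16777216 : ℕ) : ℝ) = y3 at *
  generalize ((fld x 96 16777216 : ℕ) : ℝ) = y4 at *
  generalize ((fld x 120 16777216 : ℕ) : ℝ) = y5 at *
  rcases hs with ⟨hk, hc⟩ | ⟨hk, hc⟩
  · have hD := hsg0.1.1 hc
    rcases hpos with ⟨-, w0, w1, w2, w3⟩ | ⟨h, -⟩
    swap
    · omega
    have hDF := mul_pos hD zF
    rw [min_eq_left (show ph s t1 ≤ ph s t2 by linarith),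
      min_eq_left (show ph s a ≤ ph s b by linarith), abs_of_pos hD,
      abs_of_pos (show 0 < ph s b - ph s a by linarith)]
    have n0 := mul_le_mul_of_nonneg_left (w0.trans fa1) hD.le
    have n1 := mul_le_mul_of_nonneg_left (fa2.trans w1) hD.le
    have n2 := mul_le_mul_of_nonneg_left (w2.trans fb1) hD.le
    have n3 := mul_le_mul_of_nonneg_left (fb2.trans w3) hD.le
    have n4 := mul_le_mul_of_nonneg_left m1 hD.le
    have n5 := mul_le_mul_of_nonneg_left m2 hD.le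
    refine ⟨by linarith, by linarith, by linarith, by linarith, by linarith, by linarith, ?_, hrb⟩
    split_ifs
    · exact Or.inl ⟨hk, by linarith⟩
    · exact Or.inr ⟨by omega, by linarith⟩
  · have hD := hsg0.2.1 hc
    rcases hpos with ⟨h, -⟩ | ⟨-, w0, w1, w2, w3⟩
    · omega
    have hDF := mul_neg_of_neg_of_pos hD zF
    rw [min_eq_right (show ph s t2 ≤ ph s t1 by linarith),
      min_eq_right (show ph s b ≤ ph s a by linarith), abs_of_neg hD,
      abs_of_neg (show ph s b - ph s a < 0 by linarith)]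
    have hD' : 0 ≤ -(ph s t2 - ph s t1) := by linarith
    have n0 := mul_le_mul_of_nonneg_left (w0.trans (sub_le_sub_left fb2 1)) hD'
    have n1 := mul_le_mul_of_nonneg_left ((sub_le_sub_left fb1 1).trans w1) hD'
    have n2 := mul_le_mul_of_nonneg_left (w2.trans (sub_le_sub_left fa2 1)) hD'
    have n3 := mul_le_mul_of_nonneg_left ((sub_le_sub_left fa1 1).trans w3) hD'
    have n4 := mul_le_mul_of_nonneg_left m1 hD'
    have n5 := mul_le_mul_of_nonneg_left m2 hD'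
    refine ⟨by linarith, by linarith, by linarith, by linarith, by linarith, by linarith, ?_, hrb⟩
    split_ifs
    · exact Or.inr ⟨hk, by linarith⟩
    · exact Or.inl ⟨by omega, by linarith⟩

end Pool.Agent.H.MP_a07d0e_nt
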