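import Pool.Agent.H.MP_a07d0e_nt.B
import Pool.Agent.H.MP_a07d0e_nt.C0
import Pool.Agent.H.MP_a07d0e_nt.C1
import Pool.Agent.H.MP_a07d0e_nt.C2
import Pool.Agent.H.MP_a07d0e_nt.C3
import Pool.Agent.H.MP_a07d0e_nt.C4
import Pool.Agent.H.MP_a07d0e_nt.C5
import Pool.Agent.H.MP_a07d0e_nt.C6
import Pool.Agent.H.MP_a07d0e_nt.C7

namespace Pool.Agent.H.MP_a07d0e_nt

/-- a good refinement exists -/
def Nxt (s1 s2 s3 : Co) (T : ℝ) : Prop :=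
  ∃ u1 u2 u3 : ℕ, GoodS (app 5 s1 u1) (app 5 s2 u2) (app 5 s3 u3) T ∧
    Ln (app 5 s1 u1) * Ln (app 5 s2 u2) * Ln (app 5 s3 u3) * 2 ≤ Ln s1 * Ln s2 * Ln s3

lemma SN_mono (s1 s2 s3 : Co) {a b : ℝ} (h : a ≤ b) : SN s1 s2 s3 a ≤ SN s1 s2 s3 b := by
  unfold SN
  have : 0 ≤ Ln s1 + Ln s2 + Ln s3 := by unfold Ln; positivity
  nlinarith

lemma Bx_split {k : ℕ} {s : Co} (h : Bx k s) (hk : k % 8 ≤ 3) : Bx (k + 2) s ∨ Bx (k + 4) s := by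
  obtain ⟨hs, cl, h1, h2, h5, h3, h4⟩ := h
  have e1 : (k + 2) / 8 = k / 8 := by omega
  have e2 : (k + 4) / 8 = k / 8 := by omega
  unfold Bx
  rw [e1, e2]
  rcases Nat.lt_or_ge cl 6 with h | h
  · exact Or.inl ⟨hs, cl, h1, h2, by omega, h3, h4⟩
  · exact Or.inr ⟨hs, cl, h1, h2, by omega, h3, h4⟩

lemma Rt_split {a b : ℕ} {s s' : Co} (h : Rt a b s s') (m : ℕ) : Rt a m s s' ∨ Rt m b s s' := by
  rcases le_total (65536 * Ln s') (m * Ln s) with h' | h'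
  · exact Or.inl ⟨h.1, h'⟩
  · exact Or.inr ⟨h', h.2⟩

lemma fld_lt (x i : ℕ) : fld x i 32 < 32 := Nat.mod_lt _ (by norm_num)

lemma chk_sound {g z : ℕ} {s1 s2 s3 : Co} {T : ℝ} (hz : g.testBit z = true)
    (z1 : SN s1 s2 s3 ((z : ℝ) / 256) < T) (z2 : T ≤ SN s1 s2 s3 (((z : ℝ) + 1) / 256)) :
    ∀ (f k1 k2 k3 a2 b2 a3 b3 cur b s : ℕ), chk g f k1 k2 k3 a2 b2 a3 b3 cur b s = true →
      Bx k1 s1 → Bx k2 s2 → Bx k3 s3 → Rt a2 b2 s1 s2 → Rt a3 b3 s1 s3 →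
      SN s1 s2 s3 ((cur : ℝ) / 65536) < T → T ≤ SN s1 s2 s3 ((b : ℝ) / 65536) →
      Nxt s1 s2 s3 T := by
  intro f
  induction f with
  | zero => intro _ _ _ _ _ _ _ _ _ _ h; exact absurd h (by simp [chk])
  | succ f ih =>
    intro k1 k2 k3 a2 b2 a3 b3 cur b s h x1 x2 x3 r2 r3 hl hu
    change body g (chk g f) k1 k2 k3 a2 b2 a3 b3 cur b s = true at h
    unfold body at h
    simp only [cnd_iff, an_iff, frc_eq] at h
    rcases h with ⟨h, -⟩ | ⟨-, ⟨-, h, h'⟩ | ⟨-, ⟨-, h, h'⟩ | ⟨-, h, h'⟩⟩⟩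
    · rw [Nat.ble_eq] at h
      have : (b : ℝ) / 65536 ≤ cur / 65536 := by
        have : (b : ℝ) ≤ cur := by exact_mod_cast h
        linarith
      have := SN_mono s1 s2 s3 this
      linarith
    · rcases le_or_gt T (SN s1 s2 s3 ((fld s 49 131072 : ℕ) / 65536)) with c | c
      · exact ⟨_, _, _, slab_sound h (Ln_pos x1) (Ln_pos x2) (Ln_pos x3) r2 r3
          (row_ok x1 (fld_lt _ _)) (row_ok x2 (fld_lt _ _)) (row_ok x3 (fld_lt _ _)) hl c⟩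
      · exact ih _ _ _ _ _ _ _ _ _ _ h' x1 x2 x3 r2 r3 c hu
    · refine ih _ _ _ _ _ _ _ _ _ _ h' x1 x2 x3 r2 r3 ?_ hu
      generalize fld s 2 512 = nx at *
      rw [Nat.beq_eq, fld_eq] at h
      change (g >>> (cur / 256)) % 2 ^ (nx - cur / 256) = 0 at h
      have c1 : cur / 256 ≤ z := by
        by_contra c
        have c' : (z + 1) * 256 ≤ cur := by omega
        have : ((z : ℝ) + 1) / 256 ≤ cur / 65536 := by
          have : ((z : ℝ) + 1) * 256 ≤ cur := by exact_mod_cast c'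
          linarith
        have := SN_mono s1 s2 s3 this
        linarith
      have c2 : nx ≤ z := by
        by_contra c
        have d := congrArg (fun y => y.testBit (z - cur / 256)) h
        simp only [Nat.testBit_mod_two_pow, Nat.testBit_shiftRight, Nat.zero_testBit] at d
        have e1 : z - cur / 256 < nx - cur / 256 := by omega
        have e2 : cur / 256 + (z - cur / 256) = z := by omega
        simp [e1, e2, hz] at d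
      refine lt_of_le_of_lt (SN_mono s1 s2 s3 ?_) z1
      have : (nx : ℝ) ≤ z := by exact_mod_cast c2
      simp only [Nat.mul_eq]
      push_cast
      linarith
    · rcases le_or_gt T (SN s1 s2 s3 ((fld s 5 131072 : ℕ) / 65536)) with c | c
      swap
      · exact ih _ _ _ _ _ _ _ _ _ _ h' x1 x2 x3 r2 r3 c hu
      rcases h with ⟨-, ⟨-, p, q⟩ | ⟨-, p, q⟩⟩ | ⟨-, ⟨-, w, p, q⟩ | ⟨-, ⟨-, w, p, q⟩ | ⟨-, w, p, q⟩⟩⟩
      · rcases Rt_split r2 (Nat.div (Nat.add a2 b2) 2) with r | r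
        · exact ih _ _ _ _ _ _ _ _ _ _ p x1 x2 x3 r r3 hl c
        · exact ih _ _ _ _ _ _ _ _ _ _ q x1 x2 x3 r r3 hl c
      · rcases Rt_split r3 (Nat.div (Nat.add a3 b3) 2) with r | r
        · exact ih _ _ _ _ _ _ _ _ _ _ p x1 x2 x3 r2 r hl c
        · exact ih _ _ _ _ _ _ _ _ _ _ q x1 x2 x3 r2 r hl c
      · rcases Bx_split x1 (Nat.ble_eq.mp w) with r | r
        · exact ih _ _ _ _ _ _ _ _ _ _ p r x2 x3 r2 r3 hl c
        · exact ih _ _ _ _ _ _ _ _ _ _ q r x2 x3 r2 r3 hl c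
      · rcases Bx_split x2 (Nat.ble_eq.mp w) with r | r
        · exact ih _ _ _ _ _ _ _ _ _ _ p x1 r x3 r2 r3 hl c
        · exact ih _ _ _ _ _ _ _ _ _ _ q x1 r x3 r2 r3 hl c
      · rcases Bx_split x3 (Nat.ble_eq.mp w) with r | r
        · exact ih _ _ _ _ _ _ _ _ _ _ p x1 x2 r r2 r3 hl c
        · exact ih _ _ _ _ _ _ _ _ _ _ q x1 x2 r r2 r3 hl c

lemma top_aux (key : ℕ) : ∀ (l : List ℕ) (m : ℕ),
    (List.rec (motive := fun _ => ℕ → Bool) (fun n => Nat.ble 100 n)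
      (fun s _ ih n => an (col key n s) (ih (Nat.succ n))) l m) = true →
    ∀ n, m ≤ n → n < 100 → ∃ s, col key n s = true := by
  intro l
  induction l with
  | nil =>
    intro m h n h1 h2
    have : 100 ≤ m := Nat.ble_eq.mp h
    omega
  | cons s l ih =>
    intro m h n h1 h2
    change an _ _ = true at h
    rw [an_iff] at h
    rcases Nat.eq_or_lt_of_le h1 with e | e
    · exact ⟨s, e ▸ h.1⟩
    · exact ih _ h.2 n e h2

lemma all_top (key : ℕ) (hk : key < 64) : ∃ l, top key l = true := by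
  interval_cases key
  · exact ⟨_, ck0⟩
  · exact ⟨_, ck1⟩
  · exact ⟨_, ck2⟩
  · exact ⟨_, ck3⟩
  · exact ⟨_, ck4⟩
  · exact ⟨_, ck5⟩
  · exact ⟨_, ck6⟩
  · exact ⟨_, ck7⟩
  · exact ⟨_, ck8⟩
  · exact ⟨_, ck9⟩
  · exact ⟨_, ck10⟩
  · exact ⟨_, ck11⟩
  · exact ⟨_, ck12⟩
  · exact ⟨_, ck13⟩
  · exact ⟨_, ck14⟩
  · exact ⟨_, ck15⟩
  · exact ⟨_, ck16⟩
  · exact ⟨_, ck17⟩
  · exact ⟨_, ck18⟩
  · exact ⟨_, ck19⟩
  · exact ⟨_, ck20⟩
  · exact ⟨_, ck21⟩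
  · exact ⟨_, ck22⟩
  · exact ⟨_, ck23⟩
  · exact ⟨_, ck24⟩
  · exact ⟨_, ck25⟩
  · exact ⟨_, ck26⟩
  · exact ⟨_, ck27⟩
  · exact ⟨_, ck28⟩
  · exact ⟨_, ck29⟩
  · exact ⟨_, ck30⟩
  · exact ⟨_, ck31⟩
  · exact ⟨_, ck32⟩
  · exact ⟨_, ck33⟩
  · exact ⟨_, ck34⟩
  · exact ⟨_, ck35⟩
  · exact ⟨_, ck36⟩
  · exact ⟨_, ck37⟩
  · exact ⟨_, ck38⟩
  · exact ⟨_, ck39⟩
  · exact ⟨_, ck40⟩
  · exact ⟨_, ck41⟩
  · exact ⟨_, ck42⟩
  · exact ⟨_, ck43⟩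
  · exact ⟨_, ck44⟩
  · exact ⟨_, ck45⟩
  · exact ⟨_, ck46⟩
  · exact ⟨_, ck47⟩
  · exact ⟨_, ck48⟩
  · exact ⟨_, ck49⟩
  · exact ⟨_, ck50⟩
  · exact ⟨_, ck51⟩
  · exact ⟨_, ck52⟩
  · exact ⟨_, ck53⟩
  · exact ⟨_, ck54⟩
  · exact ⟨_, ck55⟩
  · exact ⟨_, ck56⟩
  · exact ⟨_, ck57⟩
  · exact ⟨_, ck58⟩
  · exact ⟨_, ck59⟩
  · exact ⟨_, ck60⟩
  · exact ⟨_, ck61⟩
  · exact ⟨_, ck62⟩
  · exact ⟨_, ck63⟩

lemma good_nxt {s1 s2 s3 : Co} {T : ℝ} (h : Good0 s1 s2 s3 T) : Nxt s1 s2 s3 T := by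
  obtain ⟨v1, v2, v3, i, j, z, h1, h2, h3, hi, hj, hz, x1, x2, x3, r2, r3, hb, z1, z2⟩ := h
  obtain ⟨l, hl⟩ := all_top (v1 + 4 * v2 + 16 * v3) (by omega)
  obtain ⟨s, hs⟩ := top_aux _ l 0 hl (10 * i + j) (by omega) (by omega)
  unfold col at hs
  rw [frc_eq, cnd_iff] at hs
  have hg : (fld (get GT (v1 + 4 * v2 + 16 * v3)) (Nat.mul 256 (10 * i + j))
      (Nat.pow 2 256)).testBit z = true := by
    rw [fld_eq]
    simp only [Nat.mul_eq, Nat.pow_eq, Nat.testBit_mod_two_pow, Nat.testBit_shiftRight, hb, hz]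
    simp
  generalize fld (get GT (v1 + 4 * v2 + 16 * v3)) (Nat.mul 256 (10 * i + j))
      (Nat.pow 2 256) = g at hs hg
  rcases hs with ⟨h, -⟩ | ⟨-, h⟩
  · rw [Nat.beq_eq] at h
    simp [h] at hg
  · have e1 : Nat.mod (v1 + 4 * v2 + 16 * v3) 4 = v1 := by
      change (v1 + 4 * v2 + 16 * v3) % 4 = v1; omega
    have e2 : Nat.mod (Nat.div (v1 + 4 * v2 + 16 * v3) 4) 4 = v2 := by
      change (v1 + 4 * v2 + 16 * v3) / 4 % 4 = v2; omega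
    have e3 : Nat.div (v1 + 4 * v2 + 16 * v3) 16 = v3 := by
      change (v1 + 4 * v2 + 16 * v3) / 16 = v3; omega
    have e4 : Nat.div (10 * i + j) 10 = i := by
      change (10 * i + j) / 10 = i; omega
    have e5 : Nat.mod (10 * i + j) 10 = j := by
      change (10 * i + j) % 10 = j; omega
    rw [e1, e2, e3, e4, e5] at h
    refine chk_sound hg z1 z2 _ _ _ _ _ _ _ _ _ _ _ h x1 x2 x3 r2 r3 ?_ ?_
    · refine lt_of_le_of_lt (SN_mono s1 s2 s3 ?_) z1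
      have : (0 : ℝ) ≤ z := by positivity
      push_cast
      linarith
    · refine z2.trans (SN_mono s1 s2 s3 ?_)
      have : (z : ℝ) + 1 ≤ 256 := by exact_mod_cast hz
      push_cast
      linarith

end Pool.Agent.H.MP_a07d0e_nt
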