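import Pool.Agent.H.MP_a07d0e_nt.E

namespace Pool.Agent.H.MP_a07d0e_nt

open Pointwise

/-- orbits of the Gauss map with digits 1, 2 -/
def KS : Set (ℕ → ℝ) :=
  {t | ∀ k, t k ∈ Set.Icc (1 / 3 : ℝ) (3 / 4) ∧
    (t k * (1 + t (k + 1)) = 1 ∨ t k * (2 + t (k + 1)) = 1)}

/-- numbers with digits 1, 2 -/
def KK : Set ℝ := (fun t : ℕ → ℝ => t 0) '' KS

lemma KS_compact : IsCompact KS := by
  refine (isCompact_univ_pi (fun _ : ℕ => (isCompact_Icc : IsCompact (Set.Icc (1 / 3 : ℝ) (3 / 4))))).of_isClosed_subset ?_ ?_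
  · unfold KS
    rw [Set.setOf_forall]
    refine isClosed_iInter fun k => ?_
    refine IsClosed.and (isClosed_Icc.preimage (continuous_apply k)) ?_
    exact IsClosed.union (isClosed_eq (by fun_prop) continuous_const)
      (isClosed_eq (by fun_prop) continuous_const)
  · intro t ht k _
    exact (ht k).1

lemma KK_compact : IsCompact KK := KS_compact.image (continuous_apply 0)

lemma KK_bd {t : ℝ} (h : t ∈ KK) : 1 / 3 ≤ t ∧ t ≤ 3 / 4 := by
  obtain ⟨τ, h1, rfl⟩ := h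
  exact (h1 0).1

lemma KK_cons {t : ℝ} (h : t ∈ KK) (d : ℕ) (hd : d = 1 ∨ d = 2) : 1 / ((d : ℝ) + t) ∈ KK := by
  have hb := KK_bd h
  obtain ⟨τ, h1, rfl⟩ := h
  simp only at hb ⊢
  refine ⟨fun k => Nat.casesOn k (1 / ((d : ℝ) + τ 0)) τ, ?_, rfl⟩
  intro k
  cases k with
  | succ k => exact h1 k
  | zero =>
    have p : 0 < τ 0 := by linarith
    simp only [Nat.rec_zero, zero_add, Set.mem_Icc]
    rcases hd with rfl | rfl
    · refine ⟨⟨?_, ?_⟩, Or.inl ?_⟩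
      · rw [le_div_iff₀ (by positivity)]; push_cast; linarith
      · rw [div_le_iff₀ (by positivity)]; push_cast; linarith
      · push_cast; field_simp
    · refine ⟨⟨?_, ?_⟩, Or.inr ?_⟩
      · rw [le_div_iff₀ (by positivity)]; push_cast; linarith
      · rw [div_le_iff₀ (by positivity)]; push_cast; linarith
      · push_cast; field_simp

lemma mob_mem : ∀ (f u : ℕ) (t : ℝ), t ∈ KK → mob f u t ∈ KK := by
  intro f
  induction f with
  | zero => intro u t h; exact h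
  | succ f ih =>
    intro u t h
    unfold mob
    split_ifs
    · exact h
    · exact ih _ _ (KK_cons h _ (by omega))

lemma base_mem : ∃ t ∈ KK, (t1 : ℝ) ≤ t ∧ t ≤ t2 := by
  have h2 : √2 * √2 = 2 := Real.mul_self_sqrt (by norm_num)
  have h0 : 0 ≤ √2 := Real.sqrt_nonneg 2
  have h3 : 1.4 ≤ √2 := by nlinarith
  have h4 : √2 ≤ 1.5 := by nlinarith
  refine ⟨√2 - 1, ⟨fun _ => √2 - 1, fun k => ⟨⟨by linarith, by linarith⟩, Or.inr (by linarith)⟩, rfl⟩,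
    ?_, ?_⟩
  · rw [t1_eq]; linarith
  · rw [t2_eq]; linarith

lemma Bx_r {k : ℕ} {s : Co} (h : Bx k s) : 0 ≤ s.r := by
  have := (RB_pos h.2).1
  linarith

lemma btw {s : Co} (hr : 0 ≤ s.r) {t : ℝ} (h1 : (t1 : ℝ) ≤ t) (h2 : t ≤ t2) :
    lf s ≤ ph s t ∧ ph s t ≤ lf s + Ln s := by
  have p1 : (0 : ℝ) < t1 := by rw [t1_eq]; norm_num
  have p : 0 < t := by linarith
  have p2 : (0 : ℝ) < t2 := by linarith
  have e1 := ph_sub s t t1 (by positivity) (by positivity)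
  have e2 := ph_sub s t2 t (by positivity) (by positivity)
  have q1 : 0 ≤ (t - t1) / ((1 + s.r * t) * (1 + s.r * t1)) :=
    div_nonneg (by linarith) (by positivity)
  have q2 : 0 ≤ (t2 - t) / ((1 + s.r * t2) * (1 + s.r * t)) :=
    div_nonneg (by linarith) (by positivity)
  rw [mul_div_assoc] at e1 e2
  unfold lf Ln
  rcases le_total 0 s.c with hc | hc
  · have a := mul_nonneg hc q1
    have b := mul_nonneg hc q2
    rw [min_eq_left (by linarith), abs_of_nonneg (by linarith)]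
    constructor <;> linarith
  · have a := mul_nonpos_of_nonpos_of_nonneg hc q1
    have b := mul_nonpos_of_nonpos_of_nonneg hc q2
    rw [min_eq_right (by linarith), abs_of_nonpos (by linarith)]
    constructor <;> linarith

lemma Eg_bd : ∀ i < 10, 16384 ≤ Eg (i + 1) ∧ Eg i ≤ 131072 := by decide +kernel

/-- approximate solutions -/
def Sol (n : ℕ) (s1 s2 s3 : Co) (T : ℝ) : Prop :=
  ∃ a ∈ KK, ∃ b ∈ KK, ∃ c ∈ KK,
    |ph s1 a + ph s2 b + ph s3 c - T| ^ 3 ≤ 2000 * (Ln s1 * Ln s2 * Ln s3) / 2 ^ n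

lemma sol_S {n : ℕ} (ih : ∀ s1 s2 s3 T, Good0 s1 s2 s3 T → Sol n s1 s2 s3 T)
    {s1 s2 s3 : Co} {T : ℝ} (h : GoodS s1 s2 s3 T) : Sol n s1 s2 s3 T := by
  rcases h with h | h | h | h | h | h <;> obtain ⟨a, ha, b, hb, c, hc, H⟩ := ih _ _ _ _ h
  · exact ⟨a, ha, b, hb, c, hc, H⟩
  · exact ⟨a, ha, c, hc, b, hb, by convert H using 3 <;> ring⟩
  · exact ⟨b, hb, a, ha, c, hc, by convert H using 3 <;> ring⟩
  · exact ⟨c, hc, a, ha, b, hb, by convert H using 3 <;> ring⟩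
  · exact ⟨b, hb, c, hc, a, ha, by convert H using 3 <;> ring⟩
  · exact ⟨c, hc, b, hb, a, ha, by convert H using 3 <;> ring⟩

lemma good_sol : ∀ (n : ℕ) s1 s2 s3 T, Good0 s1 s2 s3 T → Sol n s1 s2 s3 T := by
  intro n
  induction n with
  | zero =>
    intro s1 s2 s3 T h
    obtain ⟨v1, v2, v3, i, j, z, h1, h2, h3, hi, hj, hz, x1, x2, x3, r2, r3, -, z1, z2⟩ := h
    obtain ⟨t, ht, a1, a2⟩ := base_mem
    refine ⟨t, ht, t, ht, t, ht, ?_⟩
    have b1 := btw (Bx_r x1) a1 a2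
    have b2 := btw (Bx_r x2) a1 a2
    have b3 := btw (Bx_r x3) a1 a2
    have l1 := Ln_pos x1
    have l2 := Ln_pos x2
    have l3 := Ln_pos x3
    have c1 : SN s1 s2 s3 0 ≤ T := (SN_mono s1 s2 s3 (by positivity)).trans z1.le
    have c2 : T ≤ SN s1 s2 s3 1 := z2.trans (SN_mono s1 s2 s3 (by
      have : (z : ℝ) + 1 ≤ 256 := by exact_mod_cast hz
      linarith))
    unfold SN at c1 c2
    have e1 : (16384 : ℝ) ≤ Eg (i + 1) := by exact_mod_cast (Eg_bd i hi).1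
    have e2 : (Eg i : ℝ) ≤ 131072 := by exact_mod_cast (Eg_bd i hi).2
    have e3 : (16384 : ℝ) ≤ Eg (j + 1) := by exact_mod_cast (Eg_bd j hj).1
    have e4 : (Eg j : ℝ) ≤ 131072 := by exact_mod_cast (Eg_bd j hj).2
    have f1 : Ln s1 ≤ 4 * Ln s2 := by nlinarith [r2.1]
    have f2 : Ln s2 ≤ 2 * Ln s1 := by nlinarith [r2.2]
    have f3 : Ln s1 ≤ 4 * Ln s3 := by nlinarith [r3.1]
    have f4 : Ln s3 ≤ 2 * Ln s1 := by nlinarith [r3.2]
    have g1 : |ph s1 t + ph s2 t + ph s3 t - T| ≤ 5 * Ln s1 := by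
      rw [abs_le]; constructor <;> linarith [b1.1, b1.2, b2.1, b2.2, b3.1, b3.2]
    have g2 := pow_le_pow_left₀ (abs_nonneg _) g1 3
    have g3 := mul_le_mul f1 f3 l1.le (by positivity)
    have g4 := mul_le_mul_of_nonneg_left g3 l1.le
    nlinarith
  | succ n ih =>
    intro s1 s2 s3 T h
    obtain ⟨u1, u2, u3, hg, hl⟩ := good_nxt h
    obtain ⟨v1, v2, v3, i, j, z, -, -, -, -, -, -, x1, x2, x3, -⟩ := h
    obtain ⟨a, ha, b, hb, c, hc, H⟩ := sol_S ih hg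
    refine ⟨_, mob_mem 5 u1 a ha, _, mob_mem 5 u2 b hb, _, mob_mem 5 u3 c hc, ?_⟩
    rw [← ph_app _ _ _ _ (Bx_r x1) (by linarith [(KK_bd ha).1]),
      ← ph_app _ _ _ _ (Bx_r x2) (by linarith [(KK_bd hb).1]),
      ← ph_app _ _ _ _ (Bx_r x3) (by linarith [(KK_bd hc).1])]
    refine H.trans ?_
    rw [pow_succ, div_le_div_iff₀ (by positivity) (by positivity)]
    have : (0 : ℝ) < 2 ^ n := by positivity
    nlinarith

lemma ph_compact {s : Co} (hr : 0 ≤ s.r) : IsCompact (ph s '' KK) := by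
  refine KK_compact.image_of_continuousOn ?_
  unfold ph
  refine ContinuousOn.add continuousOn_const (ContinuousOn.div (by fun_prop) (by fun_prop) ?_)
  intro t ht
  have := (KK_bd ht).1
  positivity

lemma good_exact {s1 s2 s3 : Co} {T : ℝ} (h : GoodS s1 s2 s3 T) (r1 : 0 ≤ s1.r) (r2 : 0 ≤ s2.r)
    (r3 : 0 ≤ s3.r) : ∃ a ∈ KK, ∃ b ∈ KK, ∃ c ∈ KK, ph s1 a + ph s2 b + ph s3 c = T := by
  have hc := (((ph_compact r1).add (ph_compact r2)).add (ph_compact r3)).isClosed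
  have : T ∈ ph s1 '' KK + ph s2 '' KK + ph s3 '' KK := by
    rw [← hc.closure_eq, Metric.mem_closure_iff]
    intro ε hε
    obtain ⟨n, hn⟩ := pow_unbounded_of_one_lt (2000 * (Ln s1 * Ln s2 * Ln s3) / ε ^ 3)
      (show (1 : ℝ) < 2 by norm_num)
    obtain ⟨a, ha, b, hb, c, hc, H⟩ := sol_S (good_sol n) h
    refine ⟨ph s1 a + ph s2 b + ph s3 c, Set.add_mem_add (Set.add_mem_add ⟨a, ha, rfl⟩ ⟨b, hb, rfl⟩)
      ⟨c, hc, rfl⟩, ?_⟩
    rw [dist_comm, Real.dist_eq]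
    refine lt_of_pow_lt_pow_left₀ 3 hε.le (H.trans_lt ?_)
    rw [div_lt_iff₀ (by positivity)] at hn ⊢
    linarith
  obtain ⟨_, ⟨_, ⟨a, ha, rfl⟩, _, ⟨b, hb, rfl⟩, rfl⟩, _, ⟨c, hc, rfl⟩, rfl⟩ := this
  exact ⟨a, ha, b, hb, c, hc, rfl⟩

end Pool.Agent.H.MP_a07d0e_nt
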