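import Pool.Agent.H.MP_a07d0e_nt.F

namespace Pool.Agent.H.MP_a07d0e_nt

/-- Gauss map -/
noncomputable def gs (x : ℝ) : ℝ := Int.fract (1 / x)

/-- digits -/
noncomputable def dg (x : ℝ) (k : ℕ) : ℤ := ⌊1 / gs^[k] x⌋

/-- all digits at most 3, and at most 2 from place `j` on -/
def BB (j : ℕ) (x : ℝ) : Prop :=
  Irrational x ∧ 0 < x ∧ x < 1 ∧ ∀ k : ℕ, (k < j → dg x k ≤ 3) ∧ (j ≤ k → dg x k ≤ 2)

lemma gs_cons (d : ℕ) {t : ℝ} (h0 : 0 ≤ t) (h1 : t < 1) :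
    gs (1 / (d + t)) = t ∧ ⌊1 / (1 / ((d : ℝ) + t))⌋ = d := by
  unfold gs
  rw [one_div_one_div]
  constructor
  · rw [Int.fract_natCast_add, Int.fract_eq_self.2 ⟨h0, h1⟩]
  · rw [Int.floor_eq_iff]
    push_cast
    constructor <;> linarith

lemma BB_cons {j : ℕ} {t : ℝ} (h : BB j t) (d : ℕ) (h1 : 1 ≤ d) (h3 : d ≤ 3) :
    BB (j + 1) (1 / (d + t)) := by
  obtain ⟨a, b, c, e⟩ := h
  have hd : (1 : ℝ) ≤ d := by exact_mod_cast h1
  have g := gs_cons d b.le c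
  refine ⟨?_, by positivity, ?_, ?_⟩
  · rw [one_div]
    exact (a.natCast_add d).inv
  · rw [div_lt_one (by positivity)]; linarith
  · intro k
    cases k with
    | zero =>
      unfold dg
      simp only [Function.iterate_zero, id]
      rw [g.2]
      omega
    | succ k =>
      have : dg (1 / (d + t)) (k + 1) = dg t k := by
        unfold dg
        rw [Function.iterate_succ_apply, g.1]
      rw [this]
      have := e k
      omega

lemma BB_mono {i j : ℕ} {t : ℝ} (h : BB i t) (hij : i ≤ j) : BB j t := by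
  obtain ⟨a, b, c, e⟩ := h
  refine ⟨a, b, c, fun k => ?_⟩
  have := e k
  omega

lemma KS_shift {τ : ℕ → ℝ} (h : τ ∈ KS) : (fun k => τ (k + 1)) ∈ KS := fun k => h (k + 1)

lemma KS_irr : ∀ (n : ℕ) (τ : ℕ → ℝ), τ ∈ KS → ∀ p : ℤ, 0 < n → τ 0 * n ≠ p := by
  intro n
  induction n using Nat.strong_induction_on with
  | _ n ih =>
    intro τ h p hn e
    obtain ⟨⟨b1, b2⟩, b3⟩ := h 0
    have hn' : (0 : ℝ) < n := by exact_mod_cast hn
    have p0 : 0 < p := by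
      have : (0 : ℝ) < p := by rw [← e]; nlinarith
      exact_mod_cast this
    have p1 : p < n := by
      have : (p : ℝ) < n := by rw [← e]; nlinarith
      exact_mod_cast this
    lift p to ℕ using p0.le
    have p2 : p < n := by exact_mod_cast p1
    have p3 : 0 < p := by exact_mod_cast p0
    push_cast at e
    rcases b3 with b3 | b3
    · refine ih p p2 _ (KS_shift h) (n - p) p3 ?_
      push_cast
      rw [← e]
      linear_combination (n : ℝ) * b3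
    · refine ih p p2 _ (KS_shift h) (n - 2 * p) p3 ?_
      push_cast
      rw [← e]
      linear_combination (n : ℝ) * b3

lemma KS_rec {τ : ℕ → ℝ} (h : τ ∈ KS) (k : ℕ) :
    ∃ d : ℕ, d ≤ 2 ∧ τ k = 1 / (d + τ (k + 1)) := by
  have := (h (k + 1)).1.1
  rcases (h k).2 with b | b
  · exact ⟨1, by norm_num, by rw [eq_div_iff (by positivity)]; push_cast; exact b⟩
  · exact ⟨2, by norm_num, by rw [eq_div_iff (by positivity)]; push_cast; exact b⟩

lemma KK_BB {t : ℝ} (h : t ∈ KK) : BB 0 t := by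
  have hb := KK_bd h
  obtain ⟨τ, h1, rfl⟩ := h
  simp only at hb ⊢
  have hg : ∀ k, gs (τ k) = τ (k + 1) ∧ ⌊1 / τ k⌋ ≤ 2 := by
    intro k
    obtain ⟨d, hd, e⟩ := KS_rec h1 k
    have b := (h1 (k + 1)).1
    have := gs_cons d (t := τ (k + 1)) (by linarith [b.1]) (by linarith [b.2])
    rw [← e] at this
    exact ⟨this.1, by rw [this.2]; omega⟩
  have hi : ∀ k, gs^[k] (τ 0) = τ k := by
    intro k
    induction k with
    | zero => rfl
    | succ k ih => rw [Function.iterate_succ_apply', ih, (hg k).1]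
  refine ⟨?_, by linarith [hb.1], by linarith [hb.2], fun k => ?_⟩
  · rintro ⟨q, hq⟩
    refine KS_irr q.den τ h1 q.num q.pos ?_
    rw [← hq]
    exact_mod_cast q.mul_den_eq_num
  · unfold dg
    rw [hi]
    have := (hg k).2
    omega

/-- the period -/
noncomputable def blk (s : Co) : Co := stp (stp (stp s 1) 1) 2

/-- repeated double periods -/
noncomputable def itr : ℕ → Co → Co
  | 0, s => blk (blk s)
  | n + 1, s => blk (blk (itr n s))

lemma stp_r {s : Co} (h : 0 ≤ s.r) (d : ℕ) : 0 ≤ (stp s d).r := by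
  simp only [stp]; positivity

lemma blk_r {s : Co} (h : 0 ≤ s.r) : 0 ≤ (blk s).r := stp_r (stp_r (stp_r h _) _) _

lemma ph_blk {s : Co} (h : 0 ≤ s.r) {t : ℝ} (ht : 0 < t) :
    ph (blk s) t = ph s (1 / ((1 : ℕ) + 1 / ((1 : ℕ) + 1 / ((2 : ℕ) + t)))) := by
  unfold blk
  rw [ph_stp _ _ (by norm_num) _ (stp_r (stp_r h _) _) ht,
    ph_stp _ _ (by norm_num) _ (stp_r h _) (by positivity),
    ph_stp _ _ (by norm_num) _ h (by positivity)]

/-- refinement relation -/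
def Ref (w : ℝ) (s s' : Co) : Prop :=
  0 ≤ s'.r ∧ ph s' w = ph s w ∧ ∀ t ∈ KK, ∃ t' ∈ KK, ph s' t = ph s t'

lemma Ref_blk {w : ℝ} (hw : 2 * w ^ 2 + 4 * w - 3 = 0) (h0 : 0 < w) {s s' : Co}
    (h : Ref w s s') : Ref w s (blk s') := by
  obtain ⟨a, b, c⟩ := h
  refine ⟨blk_r a, ?_, fun t ht => ?_⟩
  · rw [ph_blk a h0, ← b]
    congr 1
    push_cast
    field_simp
    linear_combination (-1) * hw
  · rw [ph_blk a (by linarith [(KK_bd ht).1])]
    exact c _ (KK_cons (KK_cons (KK_cons ht 2 (by norm_num)) 1 (by norm_num)) 1 (by norm_num))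

lemma Ref_itr {w : ℝ} (hw : 2 * w ^ 2 + 4 * w - 3 = 0) (h0 : 0 < w) {s : Co} (h : 0 ≤ s.r) :
    ∀ n, Ref w s (itr n s) := by
  intro n
  induction n with
  | zero => exact Ref_blk hw h0 (Ref_blk hw h0 ⟨h, rfl, fun t ht => ⟨t, ht, rfl⟩⟩)
  | succ n ih => exact Ref_blk hw h0 (Ref_blk hw h0 ih)

/-- representation by denominators -/
def Rep (s : Co) (σ q q' : ℝ) : Prop := 0 < q ∧ 0 ≤ q' ∧ s.r = q' / q ∧ s.c = σ / q ^ 2

lemma Rep_stp {s : Co} {σ q q' : ℝ} (h : Rep s σ q q') (d : ℕ) (hd : 0 < d) :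
    Rep (stp s d) (-σ) (d * q + q') q := by
  obtain ⟨a, b, c, e⟩ := h
  have : (0 : ℝ) < d := by exact_mod_cast hd
  refine ⟨by positivity, a.le, ?_, ?_⟩
  · simp only [stp, c]; field_simp
  · simp only [stp, c, e]; field_simp

lemma Rep_blk {s : Co} {σ q q' : ℝ} (h : Rep s σ q q') :
    Rep (blk s) (-σ) (5 * q + 3 * q') (2 * q + q') := by
  have := Rep_stp (Rep_stp (Rep_stp h 1 (by norm_num)) 1 (by norm_num)) 2 (by norm_num)
  unfold blk
  convert this using 1 <;> push_cast <;> ring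

lemma Rep_blk2 {s : Co} {σ q q' : ℝ} (h : Rep s σ q q') :
    Rep (blk (blk s)) σ (31 * q + 18 * q') (12 * q + 7 * q') := by
  have := Rep_blk (Rep_blk h)
  convert this using 1 <;> ring

/-- the identity chart -/
def s0 : Co := ⟨0, 1, 0⟩
/-- first initial word -/
noncomputable def X0 : Co := stp (stp (stp s0 3) 1) 2
/-- second initial word -/
noncomputable def Y0 : Co := stp (stp (stp s0 3) 2) 2
/-- third initial word -/
noncomputable def Z0 : Co := stp (stp s0 2) 3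

lemma Rep0 : Rep s0 1 1 0 := by unfold Rep s0; norm_num

lemma inv (n : ℕ) : ∃ a a' b b' c c' : ℝ, Rep (itr n X0) (-1) a a' ∧ Rep (itr n Y0) (-1) b b' ∧
    Rep (itr n Z0) 1 c c' ∧ (n : ℝ) + 1 ≤ a ∧
    1.5811 * a ≤ b ∧ b ≤ 1.5813 * a ∧ 1.5811 * a' ≤ b' ∧ b' ≤ 1.5813 * a' ∧
    0.6125 * a ≤ c ∧ c ≤ 0.6126 * a ∧ 0.6125 * a' ≤ c' ∧ c' ≤ 0.6126 * a' ∧
    0.387 * a ≤ a' ∧ a' ≤ 0.3878 * a ∧ 0.387 * b ≤ b' ∧ b' ≤ 0.3878 * b ∧
    0.387 * c ≤ c' ∧ c' ≤ 0.3878 * c := by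
  induction n with
  | zero =>
    have hx := Rep_blk2 (Rep_stp (Rep_stp (Rep_stp Rep0 3 (by norm_num)) 1 (by norm_num)) 2
      (by norm_num))
    have hy := Rep_blk2 (Rep_stp (Rep_stp (Rep_stp Rep0 3 (by norm_num)) 2 (by norm_num)) 2
      (by norm_num))
    have hz := Rep_blk2 (Rep_stp (Rep_stp Rep0 2 (by norm_num)) 3 (by norm_num))
    refine ⟨413, 160, 653, 253, 253, 98, ?_, ?_, ?_, ?_⟩
    · unfold itr X0
      convert hx using 1 <;> norm_num
    · unfold itr Y0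
      convert hy using 1 <;> norm_num
    · unfold itr Z0
      convert hz using 1 <;> norm_num
    · norm_num
  | succ n ih =>
    obtain ⟨a, a', b, b', c, c', hx, hy, hz, h⟩ := ih
    refine ⟨_, _, _, _, _, _, Rep_blk2 hx, Rep_blk2 hy, Rep_blk2 hz, ?_⟩
    have := hx.1
    have := hx.2.1
    have := hy.1
    have := hz.1
    have : (0 : ℝ) ≤ n := by positivity
    obtain ⟨h0, h1, h2, h3, h4, h5, h6, h7, h8, h9, h10, h11, h12, h13, h14⟩ := h
    push_cast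
    refine ⟨?_, ?_, ?_, ?_, ?_, ?_, ?_, ?_, ?_, ?_, ?_, ?_, ?_, ?_, ?_⟩ <;> linarith

lemma Ln_rep {s : Co} {σ q q' : ℝ} (h : Rep s σ q q') (hs : σ = 1 ∨ σ = -1) :
    Ln s * ((q + q' * t1) * (q + q' * t2)) = t2 - t1 := by
  obtain ⟨a, b, c, e⟩ := h
  have p1 : (0 : ℝ) < t1 := by rw [t1_eq]; norm_num
  have p2 : (0 : ℝ) < t2 := by rw [t2_eq]; norm_num
  have p3 : (0 : ℝ) < t2 - t1 := by rw [t1_eq, t2_eq]; norm_num
  have hr : 0 ≤ s.r := by rw [c]; positivity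
  unfold Ln
  rw [ph_sub s _ _ (by positivity) (by positivity), c, e]
  rcases hs with rfl | rfl
  · rw [abs_of_pos (by positivity)]
    field_simp
  · rw [neg_div, neg_mul, neg_div, abs_neg, abs_of_pos (by positivity)]
    field_simp

lemma ratio {s s' : Co} {σ σ' q q' p p' α β : ℝ} (h : Rep s σ q q') (hs : σ = 1 ∨ σ = -1)
    (h' : Rep s' σ' p p') (hs' : σ' = 1 ∨ σ' = -1) (hα : 0 < α)
    (h1 : α * q ≤ p) (h2 : p ≤ β * q) (h3 : α * q' ≤ p') (h4 : p' ≤ β * q') :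
    α ^ 2 * Ln s' ≤ Ln s ∧ Ln s ≤ β ^ 2 * Ln s' := by
  have e := Ln_rep h hs
  have e' := Ln_rep h' hs'
  have p1 : (0 : ℝ) < t1 := by rw [t1_eq]; norm_num
  have p2 : (0 : ℝ) < t2 := by rw [t2_eq]; norm_num
  have a := h.1
  have b := h.2.1
  have a' := h'.1
  have b' := h'.2.1
  have l : 0 ≤ Ln s' := abs_nonneg _
  have m : 0 < (q + q' * t1) * (q + q' * t2) := by positivity
  have c1 : α * (q + q' * t1) ≤ p + p' * t1 := by nlinarith
  have c2 : α * (q + q' * t2) ≤ p + p' * t2 := by nlinarith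
  have c3 : p + p' * t1 ≤ β * (q + q' * t1) := by nlinarith
  have c4 : p + p' * t2 ≤ β * (q + q' * t2) := by nlinarith
  have d1 := mul_le_mul_of_nonneg_left (mul_le_mul c1 c2 (by positivity) (by positivity)) l
  have d2 := mul_le_mul_of_nonneg_left (mul_le_mul c3 c4 (by positivity)
    (le_trans (by positivity) c3)) l
  constructor
  · refine le_of_mul_le_mul_right ?_ m
    nlinarith
  · refine le_of_mul_le_mul_right ?_ m
    nlinarith

lemma rep_r {s : Co} {σ q q' : ℝ} (h : Rep s σ q q') (h1 : 0.387 * q ≤ q') (h2 : q' ≤ 0.3878 * q) :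
    0.387 ≤ s.r ∧ s.r ≤ 0.3878 := by
  rw [h.2.2.1, le_div_iff₀ h.1, div_le_iff₀ h.1]
  exact ⟨h1, h2⟩

lemma RB5 {x : ℝ} (h : 0.387 ≤ x ∧ x ≤ 0.3878) : RB 5 x := by
  refine ⟨5, by norm_num, by norm_num, Or.inl rfl, ?_, ?_⟩ <;> simp [lo, hi] <;> linarith [h.1, h.2]

lemma fr_w {x w : ℝ} (h : 0.387 ≤ x ∧ x ≤ 0.3878) (h1 : 0.5811 ≤ w) (h2 : w ≤ 0.5812) :
    0.613 ≤ fr ((w - t1) / (t2 - t1)) t2 w x ∧ fr ((w - t1) / (t2 - t1)) t2 w x ≤ 0.617 := by
  obtain ⟨a, b⟩ := h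
  have : 0 < 1 + x * w := by positivity
  unfold fr
  rw [le_div_iff₀ this, div_le_iff₀ this, t1_eq, t2_eq,
    show (7319 / 10000 - 3662 / 10000 : ℝ) = 3657 / 10000 by norm_num]
  constructor <;> nlinarith [mul_nonneg (sub_nonneg.2 a) (sub_nonneg.2 h1),
    mul_nonneg (sub_nonneg.2 b) (sub_nonneg.2 h1), mul_nonneg (sub_nonneg.2 a) (sub_nonneg.2 h2),
    mul_nonneg (sub_nonneg.2 b) (sub_nonneg.2 h2)]

lemma pos_w {s : Co} {w : ℝ} (h : 0.387 ≤ s.r ∧ s.r ≤ 0.3878) (h1 : 0.5811 ≤ w) (h2 : w ≤ 0.5812) :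
    (0 < s.c → lf s + 0.613 * Ln s ≤ ph s w ∧ ph s w ≤ lf s + 0.617 * Ln s) ∧
    (s.c < 0 → lf s + 0.383 * Ln s ≤ ph s w ∧ ph s w ≤ lf s + 0.387 * Ln s) := by
  have hr : 0 ≤ s.r := by linarith [h.1]
  have e := pos_eq s hr w (by linarith)
  obtain ⟨f1, f2⟩ := fr_w h h1 h2
  have g := sg_iff s hr
  unfold lf Ln
  constructor
  · intro hc
    have hD := g.1.1 hc
    rw [min_eq_left (by linarith), abs_of_pos hD]
    constructor <;> nlinarith
  · intro hc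
    have hD := g.2.1 hc
    rw [min_eq_right (by linarith), abs_of_neg hD]
    constructor <;> nlinarith

lemma start_ok : slab (ent (get RT 13) 5) (ent (get RT 13) 2) (ent (get RT 5) 8)
    26200 26225 174600 174720 29989 35361 3 1 0 7 0 1 226 = true := by decide +kernel

lemma phX {t : ℝ} (ht : 0 < t) :
    ph X0 t = 1 / ((3 : ℕ) + 1 / ((1 : ℕ) + 1 / ((2 : ℕ) + t))) := by
  have h : 0 ≤ s0.r := le_rfl
  unfold X0
  rw [ph_stp _ _ (by norm_num) _ (stp_r (stp_r h _) _) ht,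
    ph_stp _ _ (by norm_num) _ (stp_r h _) (by positivity),
    ph_stp _ _ (by norm_num) _ h (by positivity)]
  simp [ph, s0]

lemma phY {t : ℝ} (ht : 0 < t) :
    ph Y0 t = 1 / ((3 : ℕ) + 1 / ((2 : ℕ) + 1 / ((2 : ℕ) + t))) := by
  have h : 0 ≤ s0.r := le_rfl
  unfold Y0
  rw [ph_stp _ _ (by norm_num) _ (stp_r (stp_r h _) _) ht,
    ph_stp _ _ (by norm_num) _ (stp_r h _) (by positivity),
    ph_stp _ _ (by norm_num) _ h (by positivity)]
  simp [ph, s0]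

lemma phZ {t : ℝ} (ht : 0 < t) : ph Z0 t = 1 / ((2 : ℕ) + 1 / ((3 : ℕ) + t)) := by
  have h : 0 ≤ s0.r := le_rfl
  unfold Z0
  rw [ph_stp _ _ (by norm_num) _ (stp_r h _) ht,
    ph_stp _ _ (by norm_num) _ h (by positivity)]
  simp [ph, s0]

lemma memX {t : ℝ} (h : t ∈ KK) : BB 2 (ph X0 t) ∧ ph X0 t ≤ 2 / 7 := by
  have hb := KK_bd h
  have h' := KK_cons (KK_cons h 2 (by norm_num)) 1 (by norm_num)
  have p : 0 < t := by linarith [hb.1]
  rw [phX p]
  refine ⟨BB_mono (BB_cons (KK_BB h') 3 (by norm_num) (by norm_num)) (by norm_num), ?_⟩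
  have := (KK_bd (KK_cons h 2 (by norm_num))).2
  have e : (1 : ℝ) / 2 ≤ 1 / ((1 : ℕ) + 1 / ((2 : ℕ) + t)) := by
    rw [le_div_iff₀ (by positivity)]; push_cast at this ⊢; linarith
  rw [div_le_iff₀ (by positivity)]; push_cast at e ⊢; linarith

lemma memY {t : ℝ} (h : t ∈ KK) : BB 2 (ph Y0 t) ∧ 2 / 7 ≤ ph Y0 t ∧ ph Y0 t ≤ 1 / 3 := by
  have hb := KK_bd h
  have h' := KK_cons (KK_cons h 2 (by norm_num)) 2 (by norm_num)
  have p : 0 < t := by linarith [hb.1]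
  rw [phY p]
  refine ⟨BB_mono (BB_cons (KK_BB h') 3 (by norm_num) (by norm_num)) (by norm_num), ?_, ?_⟩
  · have := (KK_bd (KK_cons h 2 (by norm_num))).1
    have e : 1 / ((2 : ℕ) + 1 / ((2 : ℕ) + t)) ≤ (1 : ℝ) / 2 := by
      rw [div_le_iff₀ (by positivity)]; push_cast at this ⊢; linarith
    rw [le_div_iff₀ (by positivity)]; push_cast at e ⊢; linarith
  · have := (KK_bd h').1
    rw [div_le_iff₀ (by positivity)]; push_cast at this ⊢; linarith

lemma memZ {t : ℝ} (h : t ∈ KK) : BB 2 (ph Z0 t) ∧ 1 / 3 ≤ ph Z0 t := by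
  have hb := KK_bd h
  have p : 0 < t := by linarith [hb.1]
  rw [phZ p]
  have h' := BB_cons (KK_BB h) 3 (by norm_num) (by norm_num)
  refine ⟨BB_cons h' 2 (by norm_num) (by norm_num), ?_⟩
  have := h'.2.2.1
  rw [le_div_iff₀ (by positivity)]; push_cast at this ⊢; linarith

lemma near {w : ℝ} (hw : 2 * w ^ 2 + 4 * w - 3 = 0) (h1 : 0.5811 ≤ w) (h2 : w ≤ 0.5812) (n : ℕ) :
    ∃ x y z : ℝ, BB 2 x ∧ BB 2 y ∧ BB 2 z ∧ x ≤ y ∧ y ≤ z ∧ x + y + z = 1 ∧
      x ≠ ph X0 w ∧ |x - ph X0 w| ≤ 1 / ((n : ℝ) + 1) := by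
  have w0 : 0 < w := by linarith
  have h0 : 0 ≤ s0.r := le_rfl
  have rX := Ref_itr hw w0 (s := X0) (stp_r (stp_r (stp_r h0 _) _) _) n
  have rY := Ref_itr hw w0 (s := Y0) (stp_r (stp_r (stp_r h0 _) _) _) n
  have rZ := Ref_itr hw w0 (s := Z0) (stp_r (stp_r h0 _) _) n
  have sX : ph X0 w = (3 - w) / 9 := by
    rw [phX w0]; push_cast; field_simp; linear_combination 2 * hw
  have sY : ph Y0 w = (12 + 2 * w) / 45 := by
    rw [phY w0]; push_cast; field_simp; linear_combination (-7) * hw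
  have sZ : ph Z0 w = (6 + w) / 15 := by
    rw [phZ w0]; push_cast; field_simp; linear_combination (-1) * hw
  obtain ⟨a, a', b, b', c, c', hx, hy, hz, g0, g1, g2, g3, g4, g5, g6, g7, g8, g9, g10, g11, g12,
    g13, g14⟩ := inv n
  generalize itr n X0 = sx at *
  generalize itr n Y0 = sy at *
  generalize itr n Z0 = sz at *
  have pa := hx.1
  have pb := hy.1
  have pc := hz.1
  have cx : sx.c < 0 := by rw [hx.2.2.2, neg_div, neg_lt_zero]; positivity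
  have cy : sy.c < 0 := by rw [hy.2.2.2, neg_div, neg_lt_zero]; positivity
  have cz : 0 < sz.c := by rw [hz.2.2.2]; positivity
  have ex := rep_r hx g9 g10
  have ey := rep_r hy g11 g12
  have ez := rep_r hz g13 g14
  have bx : Bx 13 sx := ⟨Or.inr ⟨rfl, cx⟩, RB5 ex⟩
  have bY : Bx 13 sy := ⟨Or.inr ⟨rfl, cy⟩, RB5 ey⟩
  have bz : Bx 5 sz := ⟨Or.inl ⟨rfl, cz⟩, RB5 ez⟩
  have l1 := Ln_pos bx
  have l2 := Ln_pos bY
  have l3 := Ln_pos bz
  obtain ⟨u1, u2⟩ := ratio hx (Or.inr rfl) hy (Or.inr rfl) (by norm_num) g1 g2 g3 g4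
  obtain ⟨u3, u4⟩ := ratio hx (Or.inr rfl) hz (Or.inl rfl) (by norm_num) g5 g6 g7 g8
  obtain ⟨v1, v2⟩ := (pos_w ex h1 h2).2 cx
  obtain ⟨v3, v4⟩ := (pos_w ey h1 h2).2 cy
  obtain ⟨v5, v6⟩ := (pos_w ez h1 h2).1 cz
  have e1 := rX.2.1
  have e2 := rY.2.1
  have e3 := rZ.2.1
  have G := (slab_sound start_ok (T := 1) l1 l2 l3
    (by constructor <;> push_cast <;> linarith only [u1, u2, l1, l2])
    (by constructor <;> push_cast <;> linarith only [u3, u4, l1, l3])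
    (row_ok bx (by norm_num)) (row_ok bY (by norm_num)) (row_ok bz (by norm_num))
    (by unfold SN; push_cast
        linarith only [u1, u2, u3, u4, l1, l2, l3, v1, v3, v5, e1, e2, e3, sX, sY, sZ])
    (by unfold SN; push_cast
        linarith only [u1, u2, u3, u4, l1, l2, l3, v2, v4, v6, e1, e2, e3, sX, sY, sZ])).1
  obtain ⟨p, hp, q, hq, r, hr, H⟩ := good_exact G (app_pos _ _ _ rX.1) (app_pos _ _ _ rY.1)
    (app_pos _ _ _ rZ.1)
  have p0 : 0 < p := by linarith only [(KK_bd hp).1]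
  rw [ph_app _ _ _ _ rX.1 p0, ph_app _ _ _ _ rY.1 (by linarith only [(KK_bd hq).1]),
    ph_app _ _ _ _ rZ.1 (by linarith only [(KK_bd hr).1])] at H
  have mp := mob_mem 5 5 p hp
  have big : 0.6 ≤ mob 5 5 p := by
    have : mob 5 5 p = 1 / (1 + 1 / (2 + p)) := by simp [mob]
    rw [this, le_div_iff₀ (by positivity)]
    have : 1 / (2 + p) ≤ 1 / 2 := by
      rw [div_le_iff₀ (by positivity)]; linarith only [p0]
    linarith only [this]
  obtain ⟨p', hp', f1⟩ := rX.2.2 _ mp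
  obtain ⟨q', hq', f2⟩ := rY.2.2 _ (mob_mem 5 2 q hq)
  obtain ⟨r', hr', f3⟩ := rZ.2.2 _ (mob_mem 5 8 r hr)
  have mX := memX hp'
  have mY := memY hq'
  have mZ := memZ hr'
  have sm := (KK_bd mp).2
  generalize mob 5 5 p = e at *
  have r0 := rX.1
  have e0 : 0 < e := by linarith only [big]
  have d := ph_sub sx e w (by positivity) (by positivity)
  have d1 : 0 < (e - w) / ((1 + sx.r * e) * (1 + sx.r * w)) :=
    div_pos (by linarith only [big, h2]) (by positivity)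
  have d2 : (e - w) / ((1 + sx.r * e) * (1 + sx.r * w)) ≤ 1 := by
    rw [div_le_one (by positivity)]
    have i1 : 0 ≤ sx.r * e := by positivity
    have i2 : 0 ≤ sx.r * w := by positivity
    have i3 := mul_nonneg i1 i2
    linarith only [i1, i2, i3, sm, w0]
  rw [mul_div_assoc] at d
  have d3 := mul_neg_of_neg_of_pos cx d1
  have d4 : -sx.c ≤ 1 / ((n : ℝ) + 1) := by
    rw [hx.2.2.2, neg_div, neg_neg]
    apply one_div_le_one_div_of_le (by positivity)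
    have i1 : (0 : ℝ) ≤ n := by positivity
    nlinarith only [i1, g0]
  refine ⟨ph X0 p', ph Y0 q', ph Z0 r', mX.1, mY.1, mZ.1, by linarith only [mX.2, mY.2.1],
    by linarith only [mY.2.2, mZ.2], by linarith only [H, f1, f2, f3], ?_, ?_⟩
  · intro h
    linarith only [h, f1, e1, d, d3]
  · rw [← f1, ← e1, d, abs_of_neg d3]
    have i1 := mul_le_mul_of_nonneg_left d2 (show 0 ≤ -sx.c by linarith only [cx])
    linarith only [i1, d4]

theorem main : {p : ℝ × ℝ × ℝ | BB 2 p.1 ∧ BB 2 p.2.1 ∧ BB 2 p.2.2 ∧ p.1 ≤ p.2.1 ∧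
    p.2.1 ≤ p.2.2 ∧ p.1 + p.2.1 + p.2.2 = 1}.Infinite := by
  have h2 : √10 * √10 = 10 := Real.mul_self_sqrt (by norm_num)
  have h0 : 0 ≤ √10 := Real.sqrt_nonneg 10
  have h3 : 3.1622 ≤ √10 := by nlinarith
  have h4 : √10 ≤ 3.1624 := by nlinarith
  have H := near (w := √10 / 2 - 1) (by linear_combination (1 / 2) * h2) (by linarith)
    (by linarith)
  generalize ph X0 (√10 / 2 - 1) = x0 at H
  refine Set.Infinite.of_image Prod.fst (Set.Infinite.of_accPt (x := x0) ?_)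
  rw [accPt_iff_nhds]
  intro U hU
  obtain ⟨ε, hε, hU⟩ := Metric.mem_nhds_iff.1 hU
  obtain ⟨n, hn⟩ := exists_nat_one_div_lt hε
  obtain ⟨x, y, z, a1, a2, a3, a4, a5, a6, a7, a8⟩ := H n
  exact ⟨x, ⟨hU (by rw [Metric.mem_ball, Real.dist_eq]; linarith),
    ⟨(x, y, z), ⟨a1, a2, a3, a4, a5, a6⟩, rfl⟩⟩, a7⟩

end Pool.Agent.H.MP_a07d0e_nt
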