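import Pool.Agent.H.MP_a07d0e_nt.D

namespace Pool.Agent.H.MP_a07d0e_nt

/-- conjunction -/
noncomputable def an (a b : Bool) : Bool := Bool.rec false b a

/-- conditional -/
noncomputable def cnd (c t e : Bool) : Bool := Bool.rec e t c

/-- strict evaluation -/
noncomputable def frc (n : ℕ) (k : ℕ → Bool) : Bool := Nat.rec (k 0) (fun m _ => k (Nat.succ m)) n

/-- bit field -/
def fld (x i w : ℕ) : ℕ := Nat.mod (Nat.shiftRight x i) w

/-- trie lookup -/
noncomputable def get (t : Tr) : ℕ → ℕ :=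
  Tr.rec (motive := fun _ => ℕ → ℕ) (fun n _ => n)
    (fun _ _ fl fr k => Bool.rec (fr (Nat.div k 2)) (fl (Nat.div k 2)) (Nat.beq (Nat.mod k 2) 0)) t

/-- ratio grid -/
def Eg (i : ℕ) : ℕ := fld EE (Nat.mul 20 i) 1048576

/-- weighted comparison, upper -/
def cmpA (g1 g2 g3 X a2 b2 a3 b3 : ℕ) : Bool :=
  Nat.ble (Nat.add (Nat.add (Nat.mul 65536 (Nat.sub g1 X)) (Nat.mul b2 (Nat.sub g2 X)))
      (Nat.mul b3 (Nat.sub g3 X)))
    (Nat.add (Nat.add (Nat.mul 65536 (Nat.sub X g1)) (Nat.mul a2 (Nat.sub X g2)))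
      (Nat.mul a3 (Nat.sub X g3)))

/-- weighted comparison, lower -/
def cmpB (g1 g2 g3 X a2 b2 a3 b3 : ℕ) : Bool :=
  Nat.ble (Nat.add (Nat.add (Nat.mul 65536 (Nat.sub X g1)) (Nat.mul b2 (Nat.sub X g2)))
      (Nat.mul b3 (Nat.sub X g3)))
    (Nat.add (Nat.add (Nat.mul 65536 (Nat.sub g1 X)) (Nat.mul a2 (Nat.sub g2 X)))
      (Nat.mul a3 (Nat.sub g3 X)))

/-- interpolation, upper -/
def gA (x t : ℕ) : ℕ :=
  Nat.add (Nat.mul (Nat.sub 256 t) (fld x 24 16777216)) (Nat.mul t (fld x 72 16777216))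

/-- interpolation, lower -/
def gB (x t : ℕ) : ℕ :=
  Nat.add (Nat.mul (Nat.sub 256 t) (fld x 0 16777216)) (Nat.mul t (fld x 48 16777216))

/-- bounded conjunction -/
noncomputable def allr (f : ℕ → Bool) (a n : ℕ) : Bool :=
  Nat.rec (f a) (fun m ih => an (f (Nat.add a (Nat.succ m))) ih) n

/-- a ratio interval lies in a union of grid cells -/
noncomputable def rng (loA hiA loB hiB i0 di : ℕ) : Bool :=
  an (Nat.ble (Nat.add i0 di) 9)
    (an (Nat.ble (Nat.mul hiB 65536) (Nat.mul (Eg i0) loA))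
      (Nat.ble (Nat.mul (Eg (Nat.succ (Nat.add i0 di))) hiA) (Nat.mul loB 65536)))

/-- bits are set -/
noncomputable def bits (ch i0 di j0 dj ta n : ℕ) : Bool :=
  allr (fun i => allr (fun j =>
    Nat.beq (Nat.succ (fld ch (Nat.add (Nat.mul 256 (Nat.add (Nat.mul 10 i) j)) ta) (Nat.pow 2 n)))
      (Nat.pow 2 n)) j0 dj) i0 di

/-- the refined state lies in the good set -/
noncomputable def fin (vA loA hiA vB loB hiB vC loC hiC i0 di j0 dj ta n : ℕ) : Bool :=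
  an (rng loA hiA loB hiB i0 di) (an (rng loA hiA loC hiC j0 dj)
    (bits (get GT (Nat.add (Nat.add vA (Nat.mul 4 vB)) (Nat.mul 16 vC))) i0 di j0 dj ta n))

/-- choice of the order of the coordinates -/
noncomputable def prm (p v1 lo1 hi1 v2 lo2 hi2 v3 lo3 hi3 i0 di j0 dj ta n : ℕ) : Bool :=
  cnd (Nat.ble p 2)
    (cnd (Nat.ble p 0) (fin v1 lo1 hi1 v2 lo2 hi2 v3 lo3 hi3 i0 di j0 dj ta n)
      (cnd (Nat.ble p 1) (fin v1 lo1 hi1 v3 lo3 hi3 v2 lo2 hi2 i0 di j0 dj ta n)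
        (fin v2 lo2 hi2 v1 lo1 hi1 v3 lo3 hi3 i0 di j0 dj ta n)))
    (cnd (Nat.ble p 3) (fin v2 lo2 hi2 v3 lo3 hi3 v1 lo1 hi1 i0 di j0 dj ta n)
      (cnd (Nat.ble p 4) (fin v3 lo3 hi3 v1 lo1 hi1 v2 lo2 hi2 i0 di j0 dj ta n)
        (fin v3 lo3 hi3 v2 lo2 hi2 v1 lo1 hi1 i0 di j0 dj ta n)))

/-- one refinement step -/
noncomputable def slab (x1 x2 x3 a2 b2 a3 b3 cur new p i0 di j0 dj ta n : ℕ) : Bool :=
  an (Nat.ble 1 n) (an (Nat.ble (Nat.add ta n) 256)
  (an (cmpA (gA x1 ta) (gA x2 ta) (gA x3 ta) (Nat.add (Nat.mul cur 4096) 1048576) a2 b2 a3 b3)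
  (an (cmpB (gB x1 (Nat.add ta n)) (gB x2 (Nat.add ta n)) (gB x3 (Nat.add ta n))
    (Nat.add (Nat.mul new 4096) 1048576) a2 b2 a3 b3)
  (an (Nat.ble (Nat.mul (Nat.mul (Nat.mul (fld x1 120 16777216) (fld x2 120 16777216))
    (fld x3 120 16777216)) 2) 1152921504606846976)
  (prm p (fld x1 144 4) (Nat.mul (fld x1 96 16777216) 65536) (Nat.mul (fld x1 120 16777216) 65536)
    (fld x2 144 4) (Nat.mul (fld x2 96 16777216) a2) (Nat.mul (fld x2 120 16777216) b2)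
    (fld x3 144 4) (Nat.mul (fld x3 96 16777216) a3) (Nat.mul (fld x3 120 16777216) b3)
    i0 di j0 dj ta n)))))

/-- table entry -/
def ent (r u : ℕ) : ℕ := fld r (Nat.mul 160 u) 1461501637330902918203684832716283019655932542976

/-- one step of the certificate checker -/
noncomputable def body (g : ℕ) (ih : ℕ → ℕ → ℕ → ℕ → ℕ → ℕ → ℕ → ℕ → ℕ → ℕ → Bool)
    (k1 k2 k3 a2 b2 a3 b3 cur b s : ℕ) : Bool :=
      cnd (Nat.ble b cur) true
      (cnd (Nat.beq (Nat.mod s 4) 0)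
        (an (slab (ent (get RT k1) (fld s 2 32)) (ent (get RT k2) (fld s 7 32))
            (ent (get RT k3) (fld s 12 32)) a2 b2 a3 b3 cur (fld s 49 131072)
            (fld s 17 8) (fld s 20 16) (fld s 24 4) (fld s 26 16) (fld s 30 4) (fld s 32 256)
            (fld s 40 512))
          (frc (Nat.shiftRight s 66) fun s' => ih k1 k2 k3 a2 b2 a3 b3 (fld s 49 131072) b s'))
      (cnd (Nat.beq (Nat.mod s 4) 1)
        (an (Nat.beq (fld g (Nat.div cur 256) (Nat.pow 2 (Nat.sub (fld s 2 512) (Nat.div cur 256)))) 0)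
          (frc (Nat.shiftRight s 11) fun s' =>
            ih k1 k2 k3 a2 b2 a3 b3 (Nat.mul (fld s 2 512) 256) b s'))
      (an (frc (Nat.shiftRight s 62) fun s1 =>
          frc (Nat.shiftRight s1 (fld s 22 1048576)) fun s2 =>
          cnd (Nat.ble (fld s 2 8) 1)
          (cnd (Nat.ble (fld s 2 8) 0)
            (an (ih k1 k2 k3 a2 (Nat.div (Nat.add a2 b2) 2) a3 b3 cur (fld s 5 131072) s1)
              (ih k1 k2 k3 (Nat.div (Nat.add a2 b2) 2) b2 a3 b3 cur (fld s 5 131072) s2))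
            (an (ih k1 k2 k3 a2 b2 a3 (Nat.div (Nat.add a3 b3) 2) cur (fld s 5 131072) s1)
              (ih k1 k2 k3 a2 b2 (Nat.div (Nat.add a3 b3) 2) b3 cur (fld s 5 131072) s2)))
          (cnd (Nat.ble (fld s 2 8) 2)
            (an (Nat.ble (Nat.mod k1 8) 3)
              (an (ih (Nat.add k1 2) k2 k3 a2 b2 a3 b3 cur (fld s 5 131072) s1)
                (ih (Nat.add k1 4) k2 k3 a2 b2 a3 b3 cur (fld s 5 131072) s2)))
            (cnd (Nat.ble (fld s 2 8) 3)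
              (an (Nat.ble (Nat.mod k2 8) 3)
                (an (ih k1 (Nat.add k2 2) k3 a2 b2 a3 b3 cur (fld s 5 131072) s1)
                  (ih k1 (Nat.add k2 4) k3 a2 b2 a3 b3 cur (fld s 5 131072) s2)))
              (an (Nat.ble (Nat.mod k3 8) 3)
                (an (ih k1 k2 (Nat.add k3 2) a2 b2 a3 b3 cur (fld s 5 131072) s1)
                  (ih k1 k2 (Nat.add k3 4) a2 b2 a3 b3 cur (fld s 5 131072) s2))))))
        (frc (Nat.shiftRight s (Nat.add (Nat.add 62 (fld s 22 1048576)) (fld s 42 1048576)))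
          fun s' => ih k1 k2 k3 a2 b2 a3 b3 (fld s 5 131072) b s'))))

/-- the certificate checker -/
noncomputable def chk (g : ℕ) (f : ℕ) :
    ℕ → ℕ → ℕ → ℕ → ℕ → ℕ → ℕ → ℕ → ℕ → ℕ → Bool :=
  Nat.rec (motive := fun _ => ℕ → ℕ → ℕ → ℕ → ℕ → ℕ → ℕ → ℕ → ℕ → ℕ → Bool)
    (fun _ _ _ _ _ _ _ _ _ _ => false) (fun _ ih => body g ih) f

/-- box key of a type -/
def ky (v : ℕ) : ℕ := Nat.add (Nat.add (Nat.mul (Nat.mod v 2) 8) 2) (Nat.div v 2)

/-- check of one column -/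
noncomputable def col (key n s : ℕ) : Bool :=
  frc (fld (get GT key) (Nat.mul 256 n) (Nat.pow 2 256)) fun g =>
    cnd (Nat.beq g 0) true
      (chk g 60 (ky (Nat.mod key 4)) (ky (Nat.mod (Nat.div key 4) 4)) (ky (Nat.div key 16))
        (Eg (Nat.succ (Nat.div n 10))) (Eg (Nat.div n 10))
        (Eg (Nat.succ (Nat.mod n 10))) (Eg (Nat.mod n 10)) 0 65536 s)

/-- check of all columns of a type triple -/
noncomputable def top (key : ℕ) (l : List ℕ) : Bool :=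
  List.rec (motive := fun _ => ℕ → Bool) (fun n => Nat.ble 100 n)
    (fun s _ ih n => an (col key n s) (ih (Nat.succ n))) l 0

end Pool.Agent.H.MP_a07d0e_nt
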